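import Pool.Agent.MP_6c7bdb_gt.FI.Lower

/-! Angles of a closed curve that is only controlled on a closed set of times. -/

namespace Pool.Agent.HZ42

open Set Filter Topology InnerProductGeometry

/-- real induction over a closed set of times -/
theorem closed_ind {L : Set ℝ} (hL : IsClosed L) {D : ℝ → ℝ → ℝ} {ω : ℝ}
    (h0 : ∀ s ∈ L, D s s = 0)
    (tri : ∀ r ∈ L, ∀ s ∈ L, ∀ t ∈ L, D r t ≤ D r s + D s t)
    (cont : ∀ s ∈ L, ContinuousOn (D s) L)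
    (gap : ∀ s ∈ L, ∀ t ∈ L, s < t → (∀ r ∈ Ioo s t, r ∉ L) → D s t ≤ ω * (t - s))
    (loc : ∀ s ∈ L, ∀ᶠ t in 𝓝[>] s, t ∈ L → D s t ≤ ω * (t - s))
    {s t : ℝ} (hs : s ∈ L) (ht : t ∈ L) (hst : s ≤ t) : D s t ≤ ω * (t - s) := by
  let A : Set ℝ := (L ∩ Icc s t) ∩ (fun r => D s r - ω * (r - s)) ⁻¹' Iic 0
  have hA : IsClosed A := by
    refine ContinuousOn.preimage_isClosed_of_isClosed ?_ (hL.inter isClosed_Icc) isClosed_Iic
    exact ((cont s hs).mono inter_subset_left).sub (by fun_prop)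
  have hsA : s ∈ A := ⟨⟨hs, le_rfl, hst⟩, by simp [h0 s hs]⟩
  have hb : BddAbove A := ⟨t, fun r hr => hr.1.2.2⟩
  have hm := hA.csSup_mem ⟨s, hsA⟩ hb
  set m := sSup A with hm0
  have hle : ∀ r ∈ A, r ≤ m := fun r hr => le_csSup hb hr
  have hmD : D s m ≤ ω * (m - s) := by
    have : D s m - ω * (m - s) ≤ 0 := hm.2
    linarith
  have step : ∀ r ∈ L, m < r → r ≤ t → D m r ≤ ω * (r - m) → False := by
    intro r hr h1 h2 h3
    have h4 := tri s hs m hm.1.1 r hr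
    have : r ∈ A := ⟨⟨hr, le_trans hm.1.2.1 h1.le, h2⟩, by
      show D s r - ω * (r - s) ≤ 0
      nlinarith⟩
    exact absurd (hle r this) (not_le.2 h1)
  rcases hm.1.2.2.eq_or_lt with h | h
  · rwa [h] at hmD
  exfalso
  obtain ⟨e, he, hloc⟩ := (mem_nhdsGT_iff_exists_Ioo_subset' (lt_add_one m)).1 (loc m hm.1.1)
  by_cases hx : ∃ r ∈ L, m < r ∧ r < e ∧ r ≤ t
  · obtain ⟨r, hr, h1, h2, h3⟩ := hx
    exact step r hr h1 h3 (hloc ⟨h1, h2⟩ hr)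
  push Not at hx
  have het : e ≤ t := by
    by_contra hlt
    exact absurd (hx t ht h (not_le.1 hlt)) (lt_irrefl t)
  let B : Set ℝ := L ∩ Icc e t
  have hB : IsClosed B := hL.inter isClosed_Icc
  have hb' : BddBelow B := ⟨e, fun r hr => hr.2.1⟩
  have hn := hB.csInf_mem ⟨t, ht, het, le_rfl⟩ hb'
  have hmn : m < sInf B := lt_of_lt_of_le he hn.2.1
  refine step _ hn.1 hmn hn.2.2 (gap m hm.1.1 _ hn.1 hmn fun r hr hrL => ?_)
  rcases lt_or_ge r e with h1 | h1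
  · exact absurd (hx r hrL hr.1 h1) (not_lt.2 (le_trans hr.2.le hn.2.2))
  · exact absurd (csInf_le hb' ⟨hrL, h1, le_trans hr.2.le hn.2.2⟩) (not_le.2 hr.2)

/-- an intermediate direction -/
theorem exists_between_angle {P Q : ℂ} (hP : P ≠ 0) (hQ : Q ≠ 0) {α β : ℝ} (hα : 0 ≤ α) (hβ : 0 ≤ β)
    (h : angle P Q ≤ α + β) : ∃ B : ℂ, B ≠ 0 ∧ angle P B ≤ α ∧ angle B Q ≤ β := by
  by_cases h1 : angle P Q ≤ α
  · exact ⟨Q, hQ, h1, by rw [angle_self hQ]; exact hβ⟩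
  have h1 := not_le.1 h1
  have hpi := angle_le_pi P Q
  have ea : angle P Q = |(Q / P).arg| := by rw [angle_comm, Complex.angle_eq_abs_arg hQ hP]
  have hQP : Q / P ≠ 0 := div_ne_zero hQ hP
  have key : ∀ x : ℝ, |x| ≤ Real.pi → x ≠ -Real.pi → angle (Complex.exp (x * Complex.I)) 1 = |x| := by
    intro x hx hx'
    rw [Complex.angle_exp_one, (toIocMod_eq_self _).2]
    have := abs_le.1 hx
    exact ⟨lt_of_le_of_ne this.1 (Ne.symm hx'), by linarith⟩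
  set φ := (Q / P).arg with hφ
  have hφ1 : -Real.pi < φ := Complex.neg_pi_lt_arg _
  have eQ : Q = (‖Q / P‖ : ℝ) • (P * Complex.exp (φ * Complex.I)) := by
    have := Complex.norm_mul_exp_arg_mul_I (Q / P)
    rw [Complex.real_smul, mul_left_comm, this]
    field_simp
  have hn : 0 < ‖Q / P‖ := norm_pos_iff.2 hQP
  obtain ⟨x, hx1, hx2⟩ : ∃ x : ℝ, |x| = α ∧ |φ - x| = |φ| - α ∧ φ - x ≠ -Real.pi ∧ x ≠ -Real.pi := by
    rw [ea] at h1 hpi
    rcases le_total 0 φ with h2 | h2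
    · rw [abs_of_nonneg h2] at h1 hpi ⊢
      exact ⟨α, abs_of_nonneg hα, abs_of_nonneg (by linarith), by linarith [Real.pi_pos],
        by linarith [Real.pi_pos]⟩
    · rw [abs_of_nonpos h2] at h1 hpi ⊢
      exact ⟨-α, by rw [abs_neg, abs_of_nonneg hα], by rw [abs_of_nonpos (by linarith)]; ring,
        by linarith, by linarith⟩
  have hB : P * Complex.exp (x * Complex.I) ≠ 0 := mul_ne_zero hP (Complex.exp_ne_zero _)
  refine ⟨P * Complex.exp (x * Complex.I), hB, ?_, ?_⟩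
  · have := Complex.angle_mul_left hP (Complex.exp (x * Complex.I)) 1
    rw [mul_one] at this
    rw [angle_comm, this, key x (by linarith) hx2.2.2, hx1]
  · have e : P * Complex.exp (φ * Complex.I) =
        (P * Complex.exp (x * Complex.I)) * Complex.exp (((φ - x : ℝ) : ℂ) * Complex.I) := by
      rw [mul_assoc, ← Complex.exp_add]; push_cast; ring_nf
    have := Complex.angle_mul_left hB (Complex.exp (((φ - x : ℝ) : ℂ) * Complex.I)) 1
    rw [mul_one, ← e] at this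
    rw [eQ, angle_smul_right_of_pos _ _ hn, angle_comm, this, key _ (by linarith) hx2.2.1, hx2.1]
    linarith

/-- a closed curve of total angle below `2 π` lies in an open half plane -/
theorem exists_half {L : Set ℝ} (hL : IsClosed L) {ζ : ℝ → ℂ} {ω T t₀ : ℝ} (hω : 0 ≤ ω) (hT : 0 < T)
    (hωT : ω * T < 2 * Real.pi) (hne : ∀ t ∈ L, ζ t ≠ 0) (h0 : t₀ ∈ L) (h1 : t₀ + T ∈ L)
    (hper : ζ (t₀ + T) = ζ t₀)
    (lip : ∀ s ∈ L, ∀ t ∈ L, s ≤ t → angle (ζ s) (ζ t) ≤ ω * (t - s)) :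
    ∃ e : ℂ, ∀ t ∈ L, t₀ ≤ t → t ≤ t₀ + T → 0 < (ζ t).re * e.re + (ζ t).im * e.im := by
  let A₁ : Set ℝ := L ∩ Icc t₀ (t₀ + T / 2)
  let A₂ : Set ℝ := L ∩ Icc (t₀ + T / 2) (t₀ + T)
  have b₁ : BddAbove A₁ := ⟨_, fun r hr => hr.2.2⟩
  have b₂ : BddBelow A₂ := ⟨_, fun r hr => hr.2.1⟩
  have m₁ := (hL.inter isClosed_Icc : IsClosed A₁).csSup_mem ⟨t₀, h0, le_rfl, by linarith⟩ b₁
  have m₂ := (hL.inter isClosed_Icc : IsClosed A₂).csInf_mem ⟨t₀ + T, h1, by linarith, le_rfl⟩ b₂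
  set p := sSup A₁
  set q := sInf A₂
  have hp := m₁.2.2
  have hq := m₂.2.1
  obtain ⟨B, hB, hB1, hB2⟩ := exists_between_angle (hne p m₁.1) (hne q m₂.1)
    (α := ω * (t₀ + T / 2 - p)) (β := ω * (q - (t₀ + T / 2))) (mul_nonneg hω (by linarith))
    (mul_nonneg hω (by linarith)) (by
      have := lip p m₁.1 q m₂.1 (by linarith)
      linarith)
  have hA := hne t₀ h0
  refine ⟨(‖ζ t₀‖⁻¹ : ℝ) • ζ t₀ + (‖B‖⁻¹ : ℝ) • B, fun t ht h2 h3 => ?_⟩
  have hs : angle (ζ t) (ζ t₀) + angle (ζ t) B < Real.pi := by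
    rcases le_total t (t₀ + T / 2) with h4 | h4
    · have a1 := lip t₀ h0 t ht h2
      have a2 := lip t ht p m₁.1 (le_csSup b₁ ⟨ht, h2, h4⟩)
      have a3 := angle_le_angle_add_angle (ζ t) (ζ p) B
      rw [angle_comm] at a1
      nlinarith
    · have a1 := lip t ht (t₀ + T) h1 h3
      have a2 := lip q m₂.1 t ht (csInf_le b₂ ⟨ht, h4, h3⟩)
      have a3 := angle_le_angle_add_angle B (ζ q) (ζ t)
      rw [hper] at a1
      rw [angle_comm] at a3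
      nlinarith
  have hc : 0 < Real.cos (angle (ζ t) (ζ t₀)) + Real.cos (angle (ζ t) B) := by
    have := Real.cos_lt_cos_of_nonneg_of_le_pi (angle_nonneg (ζ t) (ζ t₀))
      (y := Real.pi - angle (ζ t) B) (by linarith [angle_nonneg (ζ t) B]) (by linarith)
    rw [Real.cos_pi_sub] at this
    linarith
  have n0 : 0 < ‖ζ t‖ := norm_pos_iff.2 (hne t ht)
  have n1 : 0 < ‖ζ t₀‖ := norm_pos_iff.2 hA
  have n2 : 0 < ‖B‖ := norm_pos_iff.2 hB
  have c1 := cos_angle_mul_norm_mul_norm (ζ t) (ζ t₀)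
  have c2 := cos_angle_mul_norm_mul_norm (ζ t) B
  simp only [Complex.inner, Complex.mul_re, Complex.conj_re, Complex.conj_im] at c1 c2
  have e : (ζ t).re * ((‖ζ t₀‖⁻¹ : ℝ) • ζ t₀ + (‖B‖⁻¹ : ℝ) • B).re +
      (ζ t).im * ((‖ζ t₀‖⁻¹ : ℝ) • ζ t₀ + (‖B‖⁻¹ : ℝ) • B).im =
      ‖ζ t‖ * (Real.cos (angle (ζ t) (ζ t₀)) + Real.cos (angle (ζ t) B)) := by
    simp only [Complex.add_re, Complex.add_im, Complex.smul_re, Complex.smul_im, smul_eq_mul]
    field_simp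
    linear_combination (-‖B‖) * c1 - ‖ζ t₀‖ * c2
  rw [e]
  exact mul_pos n0 hc

/-- the angle from the hyperbolic distance -/
theorem angle_le_of_chord {P Q : ℂ} {u v σ y : ℝ} (hσ : 0 < σ) (hu : 0 < u) (hv : 0 < v)
    (hP : u ^ 2 - P.re ^ 2 - P.im ^ 2 = 1) (hQ : v ^ 2 - Q.re ^ 2 - Q.im ^ 2 = 1)
    (hu' : 1 + σ ^ 2 ≤ u ^ 2) (hv' : 1 + σ ^ 2 ≤ v ^ 2) (hy : 0 ≤ y) (hy' : y ≤ Real.pi)
    (h : u * v - P.re * Q.re - P.im * Q.im - 1 ≤ σ ^ 2 * (1 - Real.cos y)) : angle P Q ≤ y := by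
  have n1 : ‖P‖ ^ 2 = P.re ^ 2 + P.im ^ 2 := by rw [Complex.sq_norm, Complex.normSq_apply]; ring
  have n2 : ‖Q‖ ^ 2 = Q.re ^ 2 + Q.im ^ 2 := by rw [Complex.sq_norm, Complex.normSq_apply]; ring
  have p1 : σ ≤ ‖P‖ := abs_le_of_sq_le_sq' (by linarith) (norm_nonneg _) |>.2
  have p2 : σ ≤ ‖Q‖ := abs_le_of_sq_le_sq' (by linarith) (norm_nonneg _) |>.2
  have c1 := cos_angle_mul_norm_mul_norm P Q
  simp only [Complex.inner, Complex.mul_re, Complex.conj_re, Complex.conj_im] at c1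
  have cs : 1 + ‖P‖ * ‖Q‖ ≤ u * v := by
    refine abs_le_of_sq_le_sq' ?_ (mul_pos hu hv).le |>.2
    have e1 : u ^ 2 = 1 + ‖P‖ ^ 2 := by linarith
    have e2 : v ^ 2 = 1 + ‖Q‖ ^ 2 := by linarith
    rw [mul_pow, e1, e2]
    nlinarith [sq_nonneg (‖P‖ - ‖Q‖)]
  have hm : σ ^ 2 ≤ ‖P‖ * ‖Q‖ := by nlinarith
  have hc := Real.cos_le_one (angle P Q)
  have h2 : σ ^ 2 * (1 - Real.cos (angle P Q)) ≤ σ ^ 2 * (1 - Real.cos y) := by nlinarith
  have h3 : Real.cos y ≤ Real.cos (angle P Q) := by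
    have := le_of_mul_le_mul_left h2 (by positivity)
    linarith
  by_contra hlt
  exact absurd (Real.cos_lt_cos_of_nonneg_of_le_pi hy (angle_le_pi P Q) (not_le.1 hlt)) (not_lt.2 h3)

end Pool.Agent.HZ42
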