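import Pool.Agent.MP_6c7bdb_gt.MB.Ang

/-! The magnetic flow with a wall, in the hyperboloid model: a lower bound for the periods. -/

namespace Pool.Agent.HZ42

open Set Filter Topology InnerProductGeometry
open Pool.Agent.HZ64 (TrigPair)

theorem eq_of_deriv_zero {f : ℝ → ℝ} {a b : ℝ} (hab : a ≤ b) (hc : Continuous f)
    (hd : ∀ t ∈ Ioo a b, HasDerivAt f 0 t) : f b = f a := by
  rcases hab.eq_or_lt with h | h
  · rw [h]
  obtain ⟨c, _, hc'⟩ := exists_hasDerivAt_eq_slope f (fun _ => 0) h hc.continuousOn hd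
  have : b - a ≠ 0 := by linarith
  field_simp at hc'
  linarith

/-- position `(u, z₁, z₂)` on the hyperboloid, moment `(m₀, m₁, m₂)`, wall force `β` -/
structure Sys (E u₀ : ℝ) (u z₁ z₂ m₀ m₁ m₂ β : ℝ → ℝ) : Prop where
  du : ∀ t, HasDerivAt u (2 * (m₁ t * z₂ t - m₂ t * z₁ t)) t
  dz₁ : ∀ t, HasDerivAt z₁ (2 * (m₀ t * z₂ t - m₂ t * u t)) t
  dz₂ : ∀ t, HasDerivAt z₂ (2 * (m₁ t * u t - m₀ t * z₁ t)) t
  dm₀ : ∀ t, HasDerivAt m₀ 0 t
  dm₁ : ∀ t, HasDerivAt m₁ (-(β t * z₂ t)) t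
  dm₂ : ∀ t, HasDerivAt m₂ (β t * z₁ t) t
  pos : ∀ t, 0 < u t
  hyp : ∀ t, u t ^ 2 - z₁ t ^ 2 - z₂ t ^ 2 = 1
  charge : ∀ t, m₀ t * u t - m₁ t * z₁ t - m₂ t * z₂ t = 1
  kin_le : ∀ t, m₁ t ^ 2 + m₂ t ^ 2 - m₀ t ^ 2 + 1 ≤ E
  kin_eq : ∀ t, u t ≤ u₀ → m₁ t ^ 2 + m₂ t ^ 2 - m₀ t ^ 2 + 1 = E
  nonneg : ∀ t, 0 ≤ β t
  zero : ∀ t, u t ≤ u₀ → β t = 0
  wall : ∀ t, u₀ < u t → 0 < β t

theorem cont_of {f g : ℝ → ℝ} (h : ∀ t, HasDerivAt f (g t) t) : Continuous f :=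
  continuous_iff_continuousAt.2 fun t => (h t).continuousAt

variable {E u₀ : ℝ} {u z₁ z₂ m₀ m₁ m₂ β C S : ℝ → ℝ}

/-- the chord law of the free motion -/
theorem Sys.chord (h : Sys E u₀ u z₁ z₂ m₀ m₁ m₂ β) (hT : TrigPair (E - 1) C S) {s t : ℝ} (hst : s ≤ t)
    (hf : ∀ r ∈ Ioo s t, u r ≤ u₀) :
    u s * u t - z₁ s * z₁ t - z₂ s * z₂ t - 1 = 2 * E * S (t - s) ^ 2 := by
  have cu := cont_of h.du
  have c1 := cont_of h.dz₁
  have c2 := cont_of h.dz₂
  have k0 := cont_of h.dm₀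
  have k1 := cont_of h.dm₁
  have k2 := cont_of h.dm₂
  have cC := cont_of hT.dC
  have cS := cont_of hT.dS
  have dC : ∀ r, HasDerivAt (fun r => C (r - s)) ((E - 1) * S (r - s)) r := fun r =>
    (hT.dC (r - s)).comp_sub_const r s
  have dS : ∀ r, HasDerivAt (fun r => S (r - s)) (C (r - s)) r := fun r =>
    (hT.dS (r - s)).comp_sub_const r s
  have hg : ∀ r ∈ Ioo s t, m₀ r * u s - m₁ r * z₁ s - m₂ r * z₂ s = 1 := by
    intro r hr
    rw [← h.charge s]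
    refine eq_of_deriv_zero (f := fun r => m₀ r * u s - m₁ r * z₁ s - m₂ r * z₂ s) hr.1.le (by fun_prop)
      fun x hx => ?_
    have hz := h.zero x (hf x ⟨hx.1, hx.2.trans hr.2⟩)
    refine HasDerivAt.congr_deriv ((((h.dm₀ x).mul_const (u s)).sub ((h.dm₁ x).mul_const (z₁ s))).sub
      ((h.dm₂ x).mul_const (z₂ s))) ?_
    rw [hz]; ring
  let D : ℝ → ℝ := fun r => u s * u r - z₁ s * z₁ r - z₂ s * z₂ r - 1 - 2 * E * S (r - s) ^ 2
  let D₁ : ℝ → ℝ := fun r => u s * (m₁ r * z₂ r - m₂ r * z₁ r) - z₁ s * (m₀ r * z₂ r - m₂ r * u r) -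
    z₂ s * (m₁ r * u r - m₀ r * z₁ r) - 2 * E * (S (r - s) * C (r - s))
  have cD : Continuous D := by simp only [D]; fun_prop
  have cD₁ : Continuous D₁ := by simp only [D₁]; fun_prop
  have dD : ∀ r, HasDerivAt D (2 * D₁ r) r := fun r => by
    refine HasDerivAt.congr_deriv ((((((h.du r).const_mul (u s)).sub ((h.dz₁ r).const_mul (z₁ s))).sub
      ((h.dz₂ r).const_mul (z₂ s))).sub_const 1).sub (((dS r).pow 2).const_mul (2 * E))) ?_
    simp only [D₁]; norm_num; ring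
  have dD₁ : ∀ r ∈ Ioo s t, HasDerivAt D₁ (2 * (E - 1) * D r) r := fun r hr => by
    have hz := h.zero r (hf r hr)
    have e1 := h.kin_eq r (hf r hr)
    have e2 := hg r hr
    have e3 := h.charge r
    have e4 := hT.pyth (r - s)
    refine HasDerivAt.congr_deriv
      (((((((h.dm₁ r).mul (h.dz₂ r)).sub ((h.dm₂ r).mul (h.dz₁ r))).const_mul (u s)).sub
        ((((h.dm₀ r).mul (h.dz₂ r)).sub ((h.dm₂ r).mul (h.du r))).const_mul (z₁ s))).sub
        ((((h.dm₁ r).mul (h.du r)).sub ((h.dm₀ r).mul (h.dz₁ r))).const_mul (z₂ s))).sub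
        (((dS r).mul (dC r)).const_mul (2 * E))) ?_
    simp only [D, hz]
    linear_combination (2 * (u s * u r - z₁ s * z₁ r - z₂ s * z₂ r)) * e1 + 2 * e2 +
      2 * (m₀ r * u s - m₁ r * z₁ s - m₂ r * z₂ s) * e3 - 2 * E * e4
  have D0 : D s = 0 := by
    simp only [D, sub_self, hT.S0]
    linear_combination h.hyp s
  have D10 : D₁ s = 0 := by
    simp only [D₁, sub_self, hT.S0]; ring
  have w1 : D₁ t * (C (t - s) ^ 2 + (E - 1) * S (t - s) ^ 2) - (E - 1) * D t * (2 * (S (t - s) * C (t - s))) = 0 := by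
    have := eq_of_deriv_zero (f := fun r => D₁ r * (C (r - s) ^ 2 + (E - 1) * S (r - s) ^ 2) -
      (E - 1) * D r * (2 * (S (r - s) * C (r - s)))) hst (by fun_prop) fun r hr => by
        refine HasDerivAt.congr_deriv (((dD₁ r hr).mul (((dC r).pow 2).add (((dS r).pow 2).const_mul (E - 1)))).sub
          (((dD r).const_mul (E - 1)).mul (((dS r).mul (dC r)).const_mul 2))) ?_
        simp only [Pi.add_apply, Pi.pow_apply]; norm_num; ring
    simpa [D0, D10] using this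
  have w2 : D t * (C (t - s) ^ 2 + (E - 1) * S (t - s) ^ 2) - D₁ t * (2 * (S (t - s) * C (t - s))) = 0 := by
    have := eq_of_deriv_zero (f := fun r => D r * (C (r - s) ^ 2 + (E - 1) * S (r - s) ^ 2) -
      D₁ r * (2 * (S (r - s) * C (r - s)))) hst (by fun_prop) fun r hr => by
        refine HasDerivAt.congr_deriv (((dD r).mul (((dC r).pow 2).add (((dS r).pow 2).const_mul (E - 1)))).sub
          ((dD₁ r hr).mul (((dS r).mul (dC r)).const_mul 2))) ?_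
        simp only [Pi.add_apply, Pi.pow_apply]; norm_num; ring
    simpa [D0, D10] using this
  have e4 := hT.pyth (t - s)
  have : D t = 0 := by
    linear_combination (C (t - s) ^ 2 + (E - 1) * S (t - s) ^ 2) * w2 + (2 * (S (t - s) * C (t - s))) * w1 -
      D t * (C (t - s) ^ 2 - (E - 1) * S (t - s) ^ 2 + 1) * e4
  simp only [D] at this
  linarith

/-- Sturm comparison -/
theorem sturm {κ τ : ℝ} (hT : TrigPair κ C S) (hτ : 0 < τ) (h1 : 0 ≤ κ + (Real.pi / (2 * τ)) ^ 2)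
    (h2 : ∀ t ∈ Ioo 0 (2 * τ), 0 < S t) :
    (∀ t ∈ Icc 0 τ, S t ≤ S τ * Real.sin (Real.pi / (2 * τ) * t)) ∧ 1 ≤ S τ * (Real.pi / (2 * τ)) := by
  have hpi := Real.pi_pos
  set ν := Real.pi / (2 * τ) with hν
  have hν0 : 0 < ν := by positivity
  have hντ : ν * τ = Real.pi / 2 := by rw [hν]; field_simp
  have cC := cont_of hT.dC
  have cS := cont_of hT.dS
  have ds : ∀ t, HasDerivAt (fun t => Real.sin (ν * t)) (Real.cos (ν * t) * ν) t := fun t => by
    simpa using ((hasDerivAt_id' t).const_mul ν).sin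
  have dc : ∀ t, HasDerivAt (fun t => Real.cos (ν * t)) (-Real.sin (ν * t) * ν) t := fun t => by
    simpa using ((hasDerivAt_id' t).const_mul ν).cos
  have sp : ∀ t, 0 < t → t ≤ τ → 0 < Real.sin (ν * t) := fun t h3 h4 =>
    Real.sin_pos_of_pos_of_lt_pi (by positivity) (by nlinarith)
  let W : ℝ → ℝ := fun t => C t * Real.sin (ν * t) - S t * (ν * Real.cos (ν * t))
  have dW : ∀ t, HasDerivAt W ((κ + ν ^ 2) * (S t * Real.sin (ν * t))) t := fun t => by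
    refine HasDerivAt.congr_deriv (((hT.dC t).mul (ds t)).sub ((hT.dS t).mul ((dc t).const_mul ν))) ?_
    ring
  have mW : MonotoneOn W (Icc 0 τ) := by
    refine monotoneOn_of_deriv_nonneg (convex_Icc _ _) (cont_of dW).continuousOn
      (fun t _ => (dW t).differentiableAt.differentiableWithinAt) fun t ht => ?_
    rw [interior_Icc] at ht
    rw [(dW t).deriv]
    exact mul_nonneg h1 (mul_pos (h2 t ⟨ht.1, by linarith [ht.2]⟩) (sp t ht.1 ht.2.le)).le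
  have W0 : ∀ t ∈ Icc 0 τ, 0 ≤ W t := fun t ht => by
    have := mW ⟨le_rfl, hτ.le⟩ ht ht.1
    simpa [W, hT.S0] using this
  have main : ∀ t ∈ Icc 0 τ, S t ≤ S τ * Real.sin (ν * t) := by
    intro t ht
    rcases ht.1.eq_or_lt with h0 | h0
    · rw [← h0, hT.S0]; simp
    have dQ : ∀ r ∈ Icc t τ, HasDerivAt (fun r => S r / Real.sin (ν * r)) (W r / Real.sin (ν * r) ^ 2) r :=
      fun r hr => by
        refine HasDerivAt.congr_deriv ((hT.dS r).div (ds r) (sp r (h0.trans_le hr.1) hr.2).ne') ?_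
        simp only [W]; ring
    have mQ : MonotoneOn (fun r => S r / Real.sin (ν * r)) (Icc t τ) := by
      refine monotoneOn_of_deriv_nonneg (convex_Icc _ _) (fun r hr => (dQ r hr).continuousAt.continuousWithinAt)
        (fun r hr => (dQ r (interior_subset hr)).differentiableAt.differentiableWithinAt) fun r hr => ?_
      have hr' := interior_subset hr
      rw [(dQ r hr').deriv]
      exact div_nonneg (W0 r ⟨(h0.trans_le hr'.1).le, hr'.2⟩) (sq_nonneg _)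
    have := mQ ⟨le_rfl, ht.2⟩ ⟨ht.2, le_rfl⟩ ht.2
    simp only [hντ, Real.sin_pi_div_two, div_one] at this
    rwa [div_le_iff₀ (sp t h0 ht.2)] at this
  refine ⟨main, ?_⟩
  have hS : 0 < S τ := h2 τ ⟨hτ, by linarith⟩
  have l1 : Tendsto (fun t => t⁻¹ • (S (0 + t) - S 0)) (𝓝[>] 0) (𝓝 (C 0)) :=
    (hT.dS 0).tendsto_slope_zero_right
  rw [hT.C0] at l1
  refine le_of_tendsto l1 ?_
  filter_upwards [Ioo_mem_nhdsGT hτ] with t ht
  have a1 := main t ⟨ht.1.le, ht.2.le⟩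
  have a2 : Real.sin (ν * t) ≤ ν * t := Real.sin_le (mul_pos hν0 ht.1).le
  rw [zero_add, hT.S0, sub_zero, smul_eq_mul, inv_mul_le_iff₀ ht.1]
  nlinarith

/-- the local angular speed in the wall -/
theorem Sys.loc (h : Sys E u₀ u z₁ z₂ m₀ m₁ m₂ β) {σ ω : ℝ} (hω : 0 < ω) (hE : 4 * E < σ ^ 2 * ω ^ 2) (s : ℝ) :
    ∀ᶠ t in 𝓝[>] s, ω * (t - s) ≤ Real.pi ∧
      u s * u t - z₁ s * z₁ t - z₂ s * z₂ t - 1 ≤ σ ^ 2 * (1 - Real.cos (ω * (t - s))) := by
  have sl : ∀ {f : ℝ → ℝ} {a : ℝ}, HasDerivAt f a s → Tendsto (fun t => (f t - f s) / (t - s)) (𝓝[>] s) (𝓝 a) := by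
    intro f a hf
    have := (hasDerivAt_iff_tendsto_slope.1 hf).mono_left (nhdsGT_le_nhdsNE s)
    refine this.congr fun t => ?_
    rw [slope_def_field]
  have d4 : HasDerivAt (fun t => Real.sin (ω * (t - s) / 2)) (ω / 2) s := by
    have := ((((hasDerivAt_id' s).sub_const s).const_mul ω).div_const 2).sin
    simpa using this
  have lim := (((sl d4).pow 2).const_mul (4 * σ ^ 2)).sub
    ((((sl (h.dz₁ s)).pow 2).add ((sl (h.dz₂ s)).pow 2)).sub ((sl (h.du s)).pow 2))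
  have hpos : 0 < 4 * σ ^ 2 * (ω / 2) ^ 2 - ((2 * (m₀ s * z₂ s - m₂ s * u s)) ^ 2 +
      (2 * (m₁ s * u s - m₀ s * z₁ s)) ^ 2 - (2 * (m₁ s * z₂ s - m₂ s * z₁ s)) ^ 2) := by
    have e1 := h.hyp s
    have e2 := h.charge s
    have e3 := h.kin_le s
    have e : (2 * (m₀ s * z₂ s - m₂ s * u s)) ^ 2 + (2 * (m₁ s * u s - m₀ s * z₁ s)) ^ 2 -
        (2 * (m₁ s * z₂ s - m₂ s * z₁ s)) ^ 2 = 4 * (m₁ s ^ 2 + m₂ s ^ 2 - m₀ s ^ 2 + 1) := by
      linear_combination 4 * (m₁ s ^ 2 + m₂ s ^ 2 - m₀ s ^ 2) * e1 +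
        4 * (m₀ s * u s - m₁ s * z₁ s - m₂ s * z₂ s + 1) * e2
    rw [e]; nlinarith
  have ev1 := lim.eventually (lt_mem_nhds hpos)
  have ev2 : ∀ᶠ t in 𝓝[>] s, t ∈ Ioo s (s + Real.pi / ω) :=
    Ioo_mem_nhdsGT (by linarith [div_pos Real.pi_pos hω])
  filter_upwards [ev1, ev2] with t h1 h2
  have ht : 0 < t - s := by linarith [h2.1]
  refine ⟨?_, ?_⟩
  · have : t - s ≤ Real.pi / ω := by linarith [h2.2]
    rwa [le_div_iff₀ hω, mul_comm] at this
  have e1 := h.hyp s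
  have e2 := h.hyp t
  have e3 : Real.cos (ω * (t - s)) = 1 - 2 * Real.sin (ω * (t - s) / 2) ^ 2 := by
    have := Real.cos_two_mul (ω * (t - s) / 2)
    rw [show 2 * (ω * (t - s) / 2) = ω * (t - s) by ring, Real.cos_sq'] at this
    linarith
  simp only [sub_self, mul_zero, zero_div, Real.sin_zero, sub_zero, div_pow] at h1
  have h3 := mul_pos h1 (pow_pos ht 2)
  have e4 : (4 * σ ^ 2 * (Real.sin (ω * (t - s) / 2) ^ 2 / (t - s) ^ 2) -
      ((z₁ t - z₁ s) ^ 2 / (t - s) ^ 2 + (z₂ t - z₂ s) ^ 2 / (t - s) ^ 2 - (u t - u s) ^ 2 / (t - s) ^ 2)) *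
      (t - s) ^ 2 = 4 * σ ^ 2 * Real.sin (ω * (t - s) / 2) ^ 2 -
      ((z₁ t - z₁ s) ^ 2 + (z₂ t - z₂ s) ^ 2 - (u t - u s) ^ 2) := by
    field_simp
  rw [e4] at h3
  rw [e3]
  nlinarith

/-- the periods are bounded below by the period of the two bounce orbit -/
theorem Sys.period (h : Sys E u₀ u z₁ z₂ m₀ m₁ m₂ β) (hT : TrigPair (E - 1) C S) {σ τ T : ℝ} (hE : 0 < E)
    (hσ : 0 < σ) (hu₀ : 0 < u₀) (hu : u₀ ^ 2 = 1 + σ ^ 2) (hτ : 0 < τ)
    (h1 : 0 ≤ E - 1 + (Real.pi / (2 * τ)) ^ 2) (h2 : ∀ t ∈ Ioo 0 (2 * τ), 0 < S t)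
    (h3 : E * S τ ^ 2 ≤ σ ^ 2) (hT0 : 0 < T) (pu : ∀ t, u (t + T) = u t) (p1 : ∀ t, z₁ (t + T) = z₁ t)
    (p2 : ∀ t, z₂ (t + T) = z₂ t) (q1 : ∀ t, m₁ (t + T) = m₁ t) (q2 : ∀ t, m₂ (t + T) = m₂ t) :
    2 * τ ≤ T := by
  by_contra hlt
  have hlt := not_le.1 hlt
  have hpi := Real.pi_pos
  by_cases hw : ∀ t, u t ≤ u₀
  · have c := h.chord hT (s := 0) (t := 0 + T) (by linarith) fun r _ => hw r
    rw [pu, p1, p2] at c
    have e := h.hyp 0
    have := h2 (0 + T - 0) ⟨by linarith, by linarith⟩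
    nlinarith [mul_pos hE (pow_pos this 2)]
  push Not at hw
  obtain ⟨t₀, ht₀⟩ := hw
  obtain ⟨s1, s2⟩ := sturm hT hτ h1 h2
  obtain ⟨ω, hω1, hω2⟩ : ∃ ω, Real.pi / τ < ω ∧ ω * T < 2 * Real.pi := by
    have : Real.pi / τ < 2 * Real.pi / T := by
      rw [div_lt_div_iff₀ hτ hT0]; nlinarith
    obtain ⟨ω, a, b⟩ := exists_between this
    exact ⟨ω, a, by rwa [lt_div_iff₀ hT0] at b⟩
  have hω0 : 0 < Real.pi / τ := by positivity
  have hω : 0 < ω := hω0.trans hω1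
  have hSτ : 0 < S τ := h2 τ ⟨hτ, by linarith⟩
  have hE4 : 4 * E < σ ^ 2 * ω ^ 2 := by
    have a1 : 2 ≤ S τ * (Real.pi / τ) := by
      have : Real.pi / τ = 2 * (Real.pi / (2 * τ)) := by field_simp
      rw [this]; linarith
    have a2 : 2 < S τ * ω := lt_of_le_of_lt a1 (mul_lt_mul_of_pos_left hω1 hSτ)
    have a3 : 4 < (S τ * ω) ^ 2 := by nlinarith
    nlinarith [mul_le_mul_of_nonneg_right h3 (sq_nonneg ω)]
  let L : Set ℝ := {t | u₀ ≤ u t}
  have cu := cont_of h.du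
  have c1 := cont_of h.dz₁
  have c2 := cont_of h.dz₂
  have hL : IsClosed L := isClosed_le continuous_const cu
  let ζ : ℝ → ℂ := fun t => ⟨z₁ t, z₂ t⟩
  have cζ : Continuous ζ := by
    have : ζ = fun t => (z₁ t : ℂ) + (z₂ t : ℂ) * Complex.I := by
      funext t; apply Complex.ext <;> simp [ζ]
    rw [this]; fun_prop
  have hsq : ∀ t ∈ L, 1 + σ ^ 2 ≤ u t ^ 2 := fun t ht => by
    have : u₀ ≤ u t := ht
    nlinarith
  have hne : ∀ t ∈ L, ζ t ≠ 0 := fun t ht h0 => by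
    have a1 : z₁ t = 0 := congrArg Complex.re h0
    have a2 : z₂ t = 0 := congrArg Complex.im h0
    have := h.hyp t
    rw [a1, a2] at this
    nlinarith [hsq t ht]
  have ang : ∀ s ∈ L, ∀ t ∈ L, ∀ y, 0 ≤ y → y ≤ Real.pi →
      u s * u t - z₁ s * z₁ t - z₂ s * z₂ t - 1 ≤ σ ^ 2 * (1 - Real.cos y) → angle (ζ s) (ζ t) ≤ y :=
    fun s hs t ht y a b c => angle_le_of_chord hσ (h.pos s) (h.pos t) (h.hyp s) (h.hyp t) (hsq s hs)
      (hsq t ht) a b c
  have lip : ∀ s ∈ L, ∀ t ∈ L, s ≤ t → angle (ζ s) (ζ t) ≤ ω * (t - s) := by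
    intro s hs t ht hst
    refine closed_ind hL (D := fun s t => angle (ζ s) (ζ t)) (fun s hs => angle_self (hne s hs))
      (fun r _ s _ t _ => angle_le_angle_add_angle _ _ _) (fun s hs t ht => ?_) (fun s hs t ht hst hg => ?_)
      (fun s hs => ?_) hs ht hst
    · exact ((continuousAt_angle (x := (ζ s, ζ t)) (hne s hs) (hne t ht)).comp
        (f := fun r => (ζ s, ζ r)) (by fun_prop)).continuousWithinAt
    · rcases le_total τ (t - s) with a | a
      · refine (angle_le_pi _ _).trans ?_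
        rw [div_lt_iff₀ hτ] at hω1
        nlinarith
      have c := h.chord hT hst.le fun r hr => (not_le.1 (hg r hr)).le
      have b := s1 (t - s) ⟨by linarith, a⟩
      have b0 := h2 (t - s) ⟨by linarith, by linarith⟩
      refine (ang s hs t ht (Real.pi / τ * (t - s)) (mul_nonneg hω0.le (by linarith)) ?_ ?_).trans
        (mul_le_mul_of_nonneg_right hω1.le (by linarith))
      · rw [div_mul_eq_mul_div, div_le_iff₀ hτ]; nlinarith
      · have e3 := Real.cos_two_mul (Real.pi / (2 * τ) * (t - s))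
        rw [show 2 * (Real.pi / (2 * τ) * (t - s)) = Real.pi / τ * (t - s) by field_simp, Real.cos_sq'] at e3
        rw [c, e3]
        have b1 : S (t - s) ^ 2 ≤ (S τ * Real.sin (Real.pi / (2 * τ) * (t - s))) ^ 2 :=
          pow_le_pow_left₀ b0.le b 2
        nlinarith [mul_le_mul_of_nonneg_right h3 (sq_nonneg (Real.sin (Real.pi / (2 * τ) * (t - s)))),
          mul_le_mul_of_nonneg_left b1 hE.le]
    · filter_upwards [h.loc hω hE4 s, self_mem_nhdsWithin] with t a b ht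
      exact ang s hs t ht _ (mul_nonneg hω.le (sub_nonneg.2 (le_of_lt b))) a.1 a.2
  obtain ⟨e, he⟩ := exists_half hL (ζ := ζ) (t₀ := t₀) hω.le hT0 hω2 hne ht₀.le
    (show u₀ ≤ u (t₀ + T) by rw [pu]; exact ht₀.le) (by simp only [ζ, p1, p2]) lip
  let g : ℝ → ℝ := fun t => m₂ t * e.re - m₁ t * e.im
  have dg : ∀ t, HasDerivAt g (β t * (z₁ t * e.re + z₂ t * e.im)) t := fun t => by
    refine HasDerivAt.congr_deriv (((h.dm₂ t).mul_const e.re).sub ((h.dm₁ t).mul_const e.im)) ?_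
    ring
  have mg : MonotoneOn g (Icc t₀ (t₀ + T)) := by
    refine monotoneOn_of_deriv_nonneg (convex_Icc _ _) (cont_of dg).continuousOn
      (fun t _ => (dg t).differentiableAt.differentiableWithinAt) fun t ht => ?_
    have ht' := interior_subset ht
    rw [(dg t).deriv]
    rcases le_total (u t) u₀ with a | a
    · rw [h.zero t a, zero_mul]
    · exact mul_nonneg (h.nonneg t) (he t a ht'.1 ht'.2).le
  have hpos : 0 < β t₀ * (z₁ t₀ * e.re + z₂ t₀ * e.im) :=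
    mul_pos (h.wall t₀ ht₀) (he t₀ ht₀.le le_rfl (by linarith))
  have ev := ((dg t₀).tendsto_slope_zero_right).eventually (lt_mem_nhds hpos)
  obtain ⟨r, r1, r2⟩ := (ev.and (Ioo_mem_nhdsGT hT0)).exists
  have r3 := mg (a := t₀ + r) (b := t₀ + T) ⟨by linarith [r2.1], by linarith [r2.2]⟩ ⟨by linarith, le_rfl⟩
    (by linarith [r2.2])
  have r4 : g (t₀ + T) = g t₀ := by simp only [g, q1, q2]
  rw [smul_eq_mul] at r1
  have := (mul_pos_iff_of_pos_left (inv_pos.2 r2.1)).1 r1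
  linarith

end Pool.Agent.HZ42
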