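import Pool.Agent.MP_6c7bdb_gt.MB.Loc

/-! The admissible function supported over an embedded disc. -/

namespace Pool.Agent.HZ42

open Set Filter Topology
open scoped ContDiff MatrixGroups UpperHalfPlane
open Pool.Agent.HZ64

theorem chd_eq (c z : ℍ) : chd c z = Real.cosh (dist z c) := (UpperHalfPlane.cosh_dist' z c).symm

theorem mob_eq (γ : SL(2, ℝ)) (z : ℍ) : mob γ z = (γ • z : ℍ) := by
  rw [UpperHalfPlane.coe_specialLinearGroup_apply]; rfl

theorem act_pm {γ : SL(2, ℝ)} (h : γ = 1 ∨ γ = -1) (w : ℂ × ℂ) : act γ w = w := by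
  rcases h with rfl | rfl <;> simp [act, mob]

theorem smul_pm {γ : SL(2, ℝ)} (h : γ = 1 ∨ γ = -1) (z : ℍ) : γ • z = z := by
  apply UpperHalfPlane.ext
  rw [← mob_eq]
  exact congrArg Prod.fst (act_pm h ((z : ℂ), 0))

theorem cosh_lt {x y : ℝ} (hx : 0 ≤ x) (hy : 0 ≤ y) : Real.cosh x < Real.cosh y ↔ x < y := by
  rw [Real.cosh_lt_cosh, abs_of_nonneg hx, abs_of_nonneg hy]

/-- the base point -/
def pt (w : ℂ × ℂ) (hw : w ∈ phase) : ℍ := ⟨w.1, hw⟩

theorem chd_pt (c : ℍ) {w : ℂ × ℂ} (hw : w ∈ phase) : chd c w.1 = Real.cosh (dist (pt w hw) c) :=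
  chd_eq c (pt w hw)

theorem pt_act (γ : SL(2, ℝ)) {w : ℂ × ℂ} (hw : w ∈ phase) : pt (act γ w) (act_mem γ hw).1 = γ • pt w hw :=
  UpperHalfPlane.ext (mob_eq γ (pt w hw))

theorem near {w : ℂ × ℂ} (hw : w ∈ phase) (c : ℍ) {r : ℝ} (h : dist (pt w hw) c < r) :
    ∀ᶠ v in 𝓝 w, ∃ hv : v ∈ phase, dist (pt v hv) c < r := by
  have hr := dist_nonneg.trans h.le
  have h1 : ∀ᶠ v : ℂ × ℂ in 𝓝 w, chd c v.1 < Real.cosh r :=
    (contDiffAt_chd c.im_pos hw).continuousAt.eventually (gt_mem_nhds (by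
      exact (chd_pt c hw).trans_lt ((cosh_lt dist_nonneg hr).2 h)))
  filter_upwards [h1, isOpen_phase.mem_nhds hw] with v h2 hv
  rw [chd_pt c hv] at h2
  exact ⟨hv, (cosh_lt dist_nonneg hr).1 h2⟩

theorem lower_aux (Γ : Subgroup SL(2, ℝ)) (z₀ : ℍ) {R r₁ r₂ a c η b : ℝ} {f : ℝ → ℝ} (h₁ : 0 < r₁)
    (h₂ : r₁ < r₂) (h₃ : r₂ < R) (ha : 0 < a)
    (hR : ∀ γ ∈ Γ, γ ≠ 1 → γ ≠ -1 → 2 * R ≤ dist z₀ (γ • z₀)) (hf : ContDiff ℝ ∞ f)
    (hb : ∀ h, 0 ≤ f h ∧ f h ≤ c) (hη0 : 0 < η) (hη : ∀ h, h ≤ η → f h = c) (hba : b < a)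
    (hb0 : ∀ h, b ≤ h → f h = 0)
    (hder : ∀ h, deriv f h ≠ 0 → 0 < h ∧ h ≠ 1 ∧ |deriv f h| < 2 * tau (Real.sinh r₁) h) :
    ∃ F, Admissible Γ a F c ∧ ∀ (z : ℍ) (p : ℂ), F (z, p) ≠ 0 → ∃ γ ∈ Γ, dist z (γ • z₀) < r₂ := by
  set u₀ := Real.cosh r₁ with hu₀
  have hlt : u₀ < Real.cosh r₂ := (cosh_lt h₁.le (by linarith)).2 h₂
  have hgl : 0 < expNegInvGlue (Real.cosh r₂ - u₀) := expNegInvGlue.pos_of_pos (by linarith)
  set K := a / expNegInvGlue (Real.cosh r₂ - u₀) with hK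
  have hK0 : 0 < K := div_pos ha hgl
  let φ : ℍ → ℂ × ℂ → ℝ := fun c w => f (GG K u₀ c w)
  let F : ℂ × ℂ → ℝ := fun w => ⨆ γ : Γ, φ ((γ : SL(2, ℝ)) • z₀) w
  have bdd : ∀ w, BddAbove (range fun γ : Γ => φ ((γ : SL(2, ℝ)) • z₀) w) := fun w =>
    ⟨c, by rintro _ ⟨γ, rfl⟩; exact (hb _).2⟩
  have F0 : ∀ w, (∀ γ : Γ, φ ((γ : SL(2, ℝ)) • z₀) w = 0) → F w = 0 := fun w h => by
    simp only [F, h, ciSup_const]
  have Fnn : ∀ w, 0 ≤ F w := fun w => (hb _).1.trans (le_ciSup (bdd w) 1)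
  have far : ∀ (c : ℍ) w (hw : w ∈ phase), r₂ ≤ dist (pt w hw) c → φ c w = 0 := by
    intro c w hw h
    refine hb0 _ ?_
    have h1 : Real.cosh r₂ ≤ chd c w.1 := by
      rw [chd_pt c hw]
      exact not_lt.1 fun h2 => absurd ((cosh_lt dist_nonneg (by linarith)).1 h2) (not_lt.2 h)
    have h2 := expNegInvGlue.monotone (sub_le_sub_right h1 u₀)
    have h3 : K * expNegInvGlue (Real.cosh r₂ - u₀) = a := by rw [hK]; field_simp
    have h4 := mul_le_mul_of_nonneg_left h2 hK0.le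
    have h5 := kin_nonneg w
    rw [GG]
    linarith
  have same : ∀ γ ∈ Γ, ∀ δ ∈ Γ, dist (γ • z₀) (δ • z₀) < 2 * R → γ⁻¹ * δ = 1 ∨ γ⁻¹ * δ = -1 := by
    intro γ hγ δ hδ h
    by_contra hne
    push Not at hne
    have h1 := hR _ (Γ.mul_mem (Γ.inv_mem hγ) hδ) hne.1 hne.2
    rw [← dist_smul γ, smul_smul, mul_inv_cancel_left] at h1
    linarith
  have same' : ∀ γ ∈ Γ, ∀ δ ∈ Γ, dist (γ • z₀) (δ • z₀) < 2 * R → δ • z₀ = γ • z₀ := by
    intro γ hγ δ hδ h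
    have := smul_pm (same γ hγ δ hδ h) z₀
    rw [mul_smul, inv_smul_eq_iff] at this
    exact this
  have locEq : ∀ γ ∈ Γ, ∀ w (hw : w ∈ phase), dist (pt w hw) (γ • z₀) < R → F w = φ (γ • z₀) w := by
    intro γ hγ w hw h
    refine le_antisymm (ciSup_le fun δ => ?_) (le_ciSup (bdd w) ⟨γ, hγ⟩)
    rcases le_or_gt r₂ (dist (pt w hw) ((δ : SL(2, ℝ)) • z₀)) with h1 | h1
    · rw [far _ w hw h1]; exact (hb _).1
    · rw [same' γ hγ δ δ.2 (by linarith [dist_triangle_left (γ • z₀) ((δ : SL(2, ℝ)) • z₀) (pt w hw)])]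
  have ev : ∀ γ ∈ Γ, ∀ w (hw : w ∈ phase), dist (pt w hw) (γ • z₀) < R → F =ᶠ[𝓝 w] φ (γ • z₀) := by
    intro γ hγ w hw h
    filter_upwards [near hw _ h] with v ⟨hv, h1⟩ using locEq γ hγ v hv h1
  have supp : ∀ w (hw : w ∈ phase), F w ≠ 0 → ∃ γ ∈ Γ, dist (pt w hw) (γ • z₀) < r₂ := by
    intro w hw h
    by_contra hne
    push Not at hne
    exact h (F0 w fun γ => far _ w hw (hne γ γ.2))
  have sm : ∀ w ∈ phase, ContDiffAt ℝ ∞ F w := by
    intro w hw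
    by_cases h : ∃ γ ∈ Γ, dist (pt w hw) (γ • z₀) < R
    · obtain ⟨γ, hγ, h⟩ := h
      exact (hf.contDiffAt.comp w (contDiffAt_GG K u₀ (γ • z₀).im_pos hw)).congr_of_eventuallyEq (ev γ hγ w hw h)
    · push Not at h
      refine (contDiffAt_const (c := (0 : ℝ))).congr_of_eventuallyEq ?_
      filter_upwards [near hw (pt w hw) (r := R - r₂) (by rw [dist_self]; linarith)] with v ⟨hv, h1⟩
      refine F0 v fun γ => far _ v hv ?_
      linarith [h γ γ.2, dist_triangle_left (pt w hw) ((γ : SL(2, ℝ)) • z₀) (pt v hv)]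
  have big : ∀ w, b ≤ kin w → F w = 0 := fun w h => F0 w fun γ => hb0 _ (by
    have := mul_nonneg hK0.le (expNegInvGlue.nonneg (chd ((γ : SL(2, ℝ)) • z₀ : ℍ) w.1 - u₀))
    rw [GG]
    linarith)
  have hck : Continuous kin := contDiff_kin.continuous
  have hI : det Complex.I 1 = 1 := by simp [det]
  refine ⟨F, ⟨fun w hw => (sm w hw).contDiffWithinAt, fun δ hδ w hw => ?_, fun w _ => Fnn w,
    ⟨b, hba, fun w _ h => big w h⟩, ?_, fun w _ => ciSup_le fun γ => (hb _).2, ?_, ?_⟩,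
    fun z p h => supp (z, p) z.im_pos h⟩
  · have e : ∀ γ : Γ, φ ((((⟨δ, hδ⟩ : Γ) * γ : Γ) : SL(2, ℝ)) • z₀) (act δ w) = φ ((γ : SL(2, ℝ)) • z₀) w := by
      intro γ
      simp only [φ, GG]
      rw [(act_mem δ hw).2, chd_pt _ (act_mem δ hw).1, chd_pt _ hw, pt_act δ hw, Subgroup.coe_mul, mul_smul,
        dist_smul]
    exact (Equiv.iSup_congr (Equiv.mulLeft (⟨δ, hδ⟩ : Γ)) e).symm
  · have hm : max b 0 < a := max_lt hba ha
    refine ⟨phase ∩ kin ⁻¹' Ioo (max b 0) a, isOpen_phase.inter (isOpen_Ioo.preimage hck),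
      ⟨psi (√((a + max b 0) / 2)) Complex.I 1, psi_mem _ (by rw [hI]; exact one_pos), ?_⟩,
      fun w hw => ⟨hw.1, hw.2.2, big w ((le_max_left _ _).trans hw.2.1.le)⟩⟩
    rw [mem_preimage, kin_psi _ hI, Real.sq_sqrt (by linarith [le_max_right b 0])]
    constructor <;> linarith
  · have hw₀ : (((z₀ : ℂ), 0) : ℂ × ℂ) ∈ phase := z₀.im_pos
    have e1 := near hw₀ z₀ (r := r₁) (by
      have : pt _ hw₀ = z₀ := rfl
      rw [this, dist_self]; exact h₁)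
    have e2 : ∀ᶠ v in 𝓝 (((z₀ : ℂ), 0) : ℂ × ℂ), kin v < min η a :=
      hck.continuousAt.eventually (gt_mem_nhds (by simpa [kin] using ⟨hη0, ha⟩))
    obtain ⟨V, hV, ho, hm⟩ := eventually_nhds_iff.1 (e1.and e2)
    refine ⟨V, ho, ⟨_, hm⟩, fun w hw => ?_⟩
    obtain ⟨⟨hw', h1⟩, h2⟩ := hV w hw
    refine ⟨hw', h2.trans_le (min_le_right _ _), ?_⟩
    rw [locEq 1 Γ.one_mem w hw' (by rw [one_smul]; linarith), one_smul]
    refine hη _ ?_
    have h3 : chd z₀ w.1 < u₀ := by rw [chd_pt z₀ hw']; exact (cosh_lt dist_nonneg h₁.le).2 h1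
    rw [GG, expNegInvGlue.zero_of_nonpos (by linarith)]
    linarith [min_le_left η a]
  intro w hw T hT0 hT1 γ hγ hper
  have hp : ∀ t, w t ∈ phase := fun t => (hw t).1
  have cst : (∀ t, HasDerivAt w 0 t) → ∀ t, w t = w 0 := fun h t =>
    is_const_of_deriv_eq_zero (fun t => (h t).differentiableAt) (fun t => (h t).deriv) t 0
  have cw : Continuous w := continuous_iff_continuousAt.2 fun t => by
    obtain ⟨_, X, hX, _⟩ := hw t
    exact hX.continuousAt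
  have dF : ∀ t, HasDerivAt (fun t => F (w t)) 0 t := fun t => by
    obtain ⟨_, X, hX, hH⟩ := hw t
    refine HasDerivAt.congr_deriv
      (((sm _ (hp t)).differentiableAt (by simp)).hasFDerivAt.comp_hasDerivAt t hX) ?_
    have := hH X
    rw [omega_self] at this
    linarith
  have cF : ∀ t, F (w t) = F (w 0) := fun t =>
    is_const_of_deriv_eq_zero (fun t => (dF t).differentiableAt) (fun t => (dF t).deriv) t 0
  by_cases h0 : F (w 0) = 0
  · refine cst fun t => ?_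
    obtain ⟨_, X, hX, hH⟩ := hw t
    have hm : IsLocalMin F (w t) := Eventually.of_forall fun v => by rw [cF t, h0]; exact Fnn v
    have : X = 0 := omega_inj (w := w t) fun v => by rw [hH v, hm.fderiv_eq_zero]; simp [omega]
    rwa [this] at hX
  obtain ⟨γ₀, hγ₀, hc₀⟩ := supp _ (hp 0) h0
  have stay : ∀ t, dist (pt (w t) (hp t)) (γ₀ • z₀) < r₂ := by
    have cp : Continuous fun t => dist (pt (w t) (hp t)) (γ₀ • z₀) :=
      Continuous.dist (UpperHalfPlane.isEmbedding_coe.continuous_iff.2 (continuous_fst.comp cw)) continuous_const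
    have hcl : IsClopen {t | dist (pt (w t) (hp t)) (γ₀ • z₀) < r₂} := by
      refine ⟨?_, isOpen_lt cp continuous_const⟩
      have : {t | dist (pt (w t) (hp t)) (γ₀ • z₀) < r₂} = {t | dist (pt (w t) (hp t)) (γ₀ • z₀) ≤ r₂} := by
        refine Subset.antisymm (fun t ht => mem_setOf.2 (le_of_lt (mem_setOf.1 ht))) fun t ht => ?_
        obtain ⟨δ, hδ, h1⟩ := supp _ (hp t) (by rw [cF t]; exact h0)
        have h2 : dist (pt (w t) (hp t)) (γ₀ • z₀) ≤ r₂ := ht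
        rwa [same' γ₀ hγ₀ δ hδ (by linarith [dist_triangle_left (γ₀ • z₀) (δ • z₀) (pt (w t) (hp t))])] at h1
      rw [this]
      exact isClosed_le cp continuous_const
    exact fun t => (hcl.eq_univ ⟨0, hc₀⟩).symm.subset (mem_univ t)
  have hc : 0 < ((γ₀ • z₀ : ℍ) : ℂ).im := (γ₀ • z₀).im_pos
  have dG : ∀ t, DifferentiableAt ℝ (GG K u₀ (γ₀ • z₀ : ℍ)) (w t) := fun t =>
    (contDiffAt_GG K u₀ hc (hp t)).differentiableAt (by simp)
  have hw1 : ∀ t, HasDerivAt w (deriv f (GG K u₀ (γ₀ • z₀ : ℍ) (w t)) • XG K u₀ (γ₀ • z₀ : ℍ) (w t)) t := by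
    intro t
    obtain ⟨_, X, hX, hH⟩ := hw t
    have e := (((hf.differentiable (by simp)) _).hasDerivAt.comp_hasFDerivAt (w t) (dG t).hasFDerivAt).fderiv
    have e' : fderiv ℝ F (w t) = _ := (ev γ₀ hγ₀ _ (hp t) ((stay t).trans h₃)).fderiv_eq.trans e
    have : X = deriv f (GG K u₀ (γ₀ • z₀ : ℍ) (w t)) • XG K u₀ (γ₀ • z₀ : ℍ) (w t) :=
      omega_inj (w := w t) fun v => by rw [hH v, omega_XG K u₀ hc (hp t), e']; simp
    rwa [this] at hX
  have hk1 : ∀ t, HasDerivAt (fun t => GG K u₀ (γ₀ • z₀ : ℍ) (w t)) 0 t := fun t => by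
    refine HasDerivAt.congr_deriv ((dG t).hasFDerivAt.comp_hasDerivAt t (hw1 t)) ?_
    have := omega_XG K u₀ hc (hp t) 1 (XG K u₀ (γ₀ • z₀ : ℍ) (w t))
    rw [one_smul, omega_self, one_mul] at this
    rw [map_smul, neg_eq_zero.1 this.symm, smul_zero]
  have hk : ∀ t, GG K u₀ (γ₀ • z₀ : ℍ) (w t) = GG K u₀ (γ₀ • z₀ : ℍ) (w 0) := fun t =>
    is_const_of_deriv_eq_zero (fun t => (hk1 t).differentiableAt) (fun t => (hk1 t).deriv) t 0
  simp only [hk] at hw1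
  set E := GG K u₀ (γ₀ • z₀ : ℍ) (w 0) with hE
  by_cases hμ : deriv f E = 0
  · simp only [hμ, zero_smul] at hw1
    exact cst hw1
  exfalso
  obtain ⟨e0, e1, e2⟩ := hder E hμ
  have hpm : γ = 1 ∨ γ = -1 := by
    have a1 : pt (w (0 + T)) (hp _) = γ • pt (w 0) (hp 0) := by
      rw [← pt_act]
      exact UpperHalfPlane.ext (congrArg Prod.fst (hper 0))
    have a2 := stay (0 + T)
    have a3 := stay 0
    rw [a1] at a2
    rw [← dist_smul γ, smul_smul] at a3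
    have a4 := same γ₀ hγ₀ (γ * γ₀) (Γ.mul_mem hγ hγ₀)
      (by linarith [dist_triangle_left (γ₀ • z₀) ((γ * γ₀) • z₀) (γ • pt (w 0) (hp 0))])
    rcases a4 with a4 | a4
    · left
      rw [inv_mul_eq_one] at a4
      exact mul_right_cancel (a4.symm.trans (one_mul γ₀).symm)
    · right
      rw [inv_mul_eq_iff_eq_mul] at a4
      exact mul_right_cancel (a4.trans (by simp : γ₀ * -1 = -1 * γ₀))
  have per : Function.Periodic w T := fun t => (hper t).trans (act_pm hpm _)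
  have hμ' : 0 < |deriv f E| := abs_pos.2 hμ
  have key := loc_period (v := fun s => w (s / deriv f E)) (σ := Real.sinh r₁) (T := |deriv f E| * T) hc hK0
    (fun s => hp _) (fun s => by
      refine HasDerivAt.congr_deriv ((hw1 (s / deriv f E)).scomp s ((hasDerivAt_id' s).div_const (deriv f E))) ?_
      rw [smul_smul, one_div, inv_mul_cancel₀ hμ, one_smul]) (fun s => hk _) e0 e1 (Real.sinh_pos_iff.2 h₁)
    (Real.cosh_pos _) (by rw [hu₀, Real.cosh_sq']) (mul_pos hμ' hT0) (fun s => by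
      rcases abs_choice (deriv f E) with h | h
      · rw [h, show (s + deriv f E * T) / deriv f E = s / deriv f E + T by field_simp]
        exact per _
      · rw [h, show (s + -deriv f E * T) / deriv f E = s / deriv f E + -T by field_simp]
        exact per.neg _)
  nlinarith

theorem lower_disc (Γ : Subgroup SL(2, ℝ)) (z₀ : ℍ) {R a c₀ : ℝ} (hR0 : 0 < R) (ha : 1 < a)
    (hR : ∀ γ ∈ Γ, γ ≠ 1 → γ ≠ -1 → 2 * R ≤ dist z₀ (γ • z₀))
    (hc : c₀ < PhiP (Real.sinh R) (Real.sinh R / Real.cosh R) a) :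
    ∃ F c r, c₀ < c ∧ r < R ∧ Admissible Γ a F c ∧
      ∀ (z : ℍ) (p : ℂ), F (z, p) ≠ 0 → ∃ γ ∈ Γ, dist z (γ • z₀) < r := by
  have hcont : Continuous fun r : ℝ => PhiP (Real.sinh r) (Real.sinh r / Real.cosh r) a := by
    have : Continuous fun r : ℝ => Real.sinh r / Real.cosh r :=
      Real.continuous_sinh.div Real.continuous_cosh fun r => (Real.cosh_pos r).ne'
    exact (continuous_const.mul (Real.continuous_arsinh.comp (by fun_prop))).add
      (continuous_const.mul (Real.continuous_arcsin.comp (this.div_const _)))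
  obtain ⟨r₁, h1, h2⟩ := (((hcont.continuousAt.eventually (lt_mem_nhds hc)).filter_mono nhdsWithin_le_nhds).and
    (Ioo_mem_nhdsLT hR0)).exists
  obtain ⟨f, c, hc', hf, hb, ⟨η, hη0, hη⟩, ⟨b, hba, hb0⟩, hder⟩ :=
    exists_prof (Real.sinh_pos_iff.2 h2.1) (Real.cosh_pos r₁) (Real.cosh_sq' r₁)
      (div_mul_cancel₀ _ (Real.cosh_pos r₁).ne') ha h1
  obtain ⟨r₂, h3, h4⟩ := exists_between h2.2
  obtain ⟨F, hF, hs⟩ := lower_aux Γ z₀ h2.1 h3 h4 (by linarith) hR hf hb hη0 hη hba hb0 hder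
  exact ⟨F, c, r₂, hc', h4, hF, hs⟩

end Pool.Agent.HZ42
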