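import Pool.Agent.MP_6c7bdb_gt.MB.Prof

/-! The kinetic energy plus a wall potential around one centre. -/

namespace Pool.Agent.HZ42

open Set Filter Topology Complex
open scoped ContDiff
open Pool.Agent.HZ64

theorem ode_period {x y p q β : ℝ → ℝ} {E u₀ σ T : ℝ} (hy : ∀ t, 0 < y t)
    (dx : ∀ t, HasDerivAt x (2 * y t ^ 2 * p t) t) (dy : ∀ t, HasDerivAt y (2 * y t ^ 2 * q t) t)
    (dp : ∀ t, HasDerivAt p (2 * q t - β t * (x t / y t)) t)
    (dq : ∀ t, HasDerivAt q (-2 * y t * (p t ^ 2 + q t ^ 2) - 2 * p t -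
      β t * ((y t ^ 2 - x t ^ 2 - 1) / (2 * y t ^ 2))) t)
    (kle : ∀ t, y t ^ 2 * (p t ^ 2 + q t ^ 2) ≤ E)
    (keq : ∀ t, (x t ^ 2 + y t ^ 2 + 1) / (2 * y t) ≤ u₀ → y t ^ 2 * (p t ^ 2 + q t ^ 2) = E)
    (b0 : ∀ t, 0 ≤ β t) (b1 : ∀ t, (x t ^ 2 + y t ^ 2 + 1) / (2 * y t) ≤ u₀ → β t = 0)
    (b2 : ∀ t, u₀ < (x t ^ 2 + y t ^ 2 + 1) / (2 * y t) → 0 < β t)
    (hE : 0 < E) (hE1 : E ≠ 1) (hσ : 0 < σ) (hu₀ : 0 < u₀) (hu : u₀ ^ 2 = 1 + σ ^ 2) (hT : 0 < T)
    (px : ∀ t, x (t + T) = x t) (py : ∀ t, y (t + T) = y t) (pp : ∀ t, p (t + T) = p t)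
    (pq : ∀ t, q (t + T) = q t) : 2 * tau σ E ≤ T := by
  obtain ⟨C, S, h0, h1, h2, h3, h4⟩ := tau_good hσ hE hE1
  have hk : ∀ t, (x t * p t + y t * q t + x t / y t) ^ 2 +
      (((x t ^ 2 - y t ^ 2) * p t + 2 * (x t * y t * q t) + (x t ^ 2 + y t ^ 2) / y t - (p t + 1 / y t)) / 2) ^ 2 -
      (((x t ^ 2 - y t ^ 2) * p t + 2 * (x t * y t * q t) + (x t ^ 2 + y t ^ 2) / y t + (p t + 1 / y t)) / 2) ^ 2 + 1 =
      y t ^ 2 * (p t ^ 2 + q t ^ 2) := fun t => by
    have := (hy t).ne'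
    field_simp
    ring
  have dS : ∀ t, HasDerivAt (fun t => (x t ^ 2 - y t ^ 2) * p t + 2 * (x t * y t * q t) + (x t ^ 2 + y t ^ 2) / y t)
      (β t * (x t / y t)) t := fun t => by
    have := (hy t).ne'
    refine HasDerivAt.congr_deriv ((((((dx t).pow 2).sub ((dy t).pow 2)).mul (dp t)).add
      ((((dx t).mul (dy t)).mul (dq t)).const_mul 2)).add ((((dx t).pow 2).add ((dy t).pow 2)).div (dy t) this)) ?_
    simp only [Pi.add_apply, Pi.pow_apply, Pi.sub_apply, Pi.mul_apply]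
    norm_num
    field_simp
    ring
  have dT : ∀ t, HasDerivAt (fun t => p t + 1 / y t) (-(β t * (x t / y t))) t := fun t => by
    have := (hy t).ne'
    refine HasDerivAt.congr_deriv ((dp t).add ((hasDerivAt_const t (1 : ℝ)).div (dy t) this)) ?_
    field_simp
    ring
  have sys : Sys E u₀ (fun t => (x t ^ 2 + y t ^ 2 + 1) / (2 * y t)) (fun t => x t / y t)
      (fun t => (x t ^ 2 + y t ^ 2 - 1) / (2 * y t))
      (fun t => ((x t ^ 2 - y t ^ 2) * p t + 2 * (x t * y t * q t) + (x t ^ 2 + y t ^ 2) / y t + (p t + 1 / y t)) / 2)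
      (fun t => x t * p t + y t * q t + x t / y t)
      (fun t => ((x t ^ 2 - y t ^ 2) * p t + 2 * (x t * y t * q t) + (x t ^ 2 + y t ^ 2) / y t - (p t + 1 / y t)) / 2)
      β := by
    refine ⟨fun t => ?_, fun t => ?_, fun t => ?_, fun t => ?_, fun t => ?_, fun t => ?_, fun t => ?_, fun t => ?_,
      fun t => ?_, fun t => ?_, fun t h => ?_, b0, b1, b2⟩
    · have := (hy t).ne'
      refine HasDerivAt.congr_deriv (((((dx t).pow 2).add ((dy t).pow 2)).add_const 1).div ((dy t).const_mul 2)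
        (mul_ne_zero two_ne_zero this)) ?_
      simp only [Pi.add_apply, Pi.pow_apply]
      norm_num
      field_simp
      ring
    · have := (hy t).ne'
      refine HasDerivAt.congr_deriv ((dx t).div (dy t) this) ?_
      field_simp
      ring
    · have := (hy t).ne'
      refine HasDerivAt.congr_deriv (((((dx t).pow 2).add ((dy t).pow 2)).sub_const 1).div ((dy t).const_mul 2)
        (mul_ne_zero two_ne_zero this)) ?_
      simp only [Pi.add_apply, Pi.pow_apply]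
      norm_num
      field_simp
      ring
    · refine HasDerivAt.congr_deriv (((dS t).add (dT t)).div_const 2) ?_
      ring
    · have := (hy t).ne'
      refine HasDerivAt.congr_deriv ((((dx t).mul (dp t)).add ((dy t).mul (dq t))).add ((dx t).div (dy t) this)) ?_
      field_simp
      ring
    · refine HasDerivAt.congr_deriv (((dS t).sub (dT t)).div_const 2) ?_
      ring
    · have := hy t
      positivity
    · have := (hy t).ne'
      field_simp
      ring
    · have := (hy t).ne'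
      field_simp
      ring
    · exact (hk t).le.trans (kle t)
    · exact (hk t).trans (keq t h)
  exact sys.period h0 hE hσ hu₀ hu h1 h2 h3 h4 hT (fun t => by simp only [px, py]) (fun t => by simp only [px, py])
    (fun t => by simp only [px, py]) (fun t => by simp only [px, py, pp, pq]) (fun t => by simp only [px, py, pp, pq])

/-- the hyperbolic cosine of the distance from `c` to `z` -/
noncomputable def chd (c z : ℂ) : ℝ := ((z.re - c.re) ^ 2 + z.im ^ 2 + c.im ^ 2) / (2 * z.im * c.im)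

/-- the derivative of the wall potential -/
noncomputable def wall (K u₀ u : ℝ) : ℝ := K * ((u - u₀)⁻¹ ^ 2 * expNegInvGlue (u - u₀))

/-- kinetic energy plus wall potential -/
noncomputable def GG (K u₀ : ℝ) (c : ℂ) (w : ℂ × ℂ) : ℝ := kin w + K * expNegInvGlue (chd c w.1 - u₀)

/-- the gradient of `chd c` -/
noncomputable def grad (c z : ℂ) : ℂ :=
  ⟨(z.re - c.re) / (z.im * c.im), (z.im ^ 2 - (z.re - c.re) ^ 2 - c.im ^ 2) / (2 * z.im ^ 2 * c.im)⟩

/-- the Hamiltonian vector field of `GG` -/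
noncomputable def XG (K u₀ : ℝ) (c : ℂ) (w : ℂ × ℂ) : ℂ × ℂ :=
  XH w - (0, wall K u₀ (chd c w.1) • grad c w.1)

theorem hasDerivAt_wall (K u₀ u : ℝ) : HasDerivAt (fun u => K * expNegInvGlue (u - u₀)) (wall K u₀ u) u := by
  have h := expNegInvGlue.hasDerivAt_polynomial_eval_inv_mul 1 (u - u₀)
  simp only [Polynomial.eval_one, one_mul, Polynomial.derivative_one, sub_zero, mul_one, Polynomial.eval_pow,
    Polynomial.eval_X] at h
  exact (h.comp_sub_const u u₀).const_mul K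

theorem contDiffAt_chd {c : ℂ} (hc : 0 < c.im) {w : ℂ × ℂ} (hw : w ∈ phase) :
    ContDiffAt ℝ ∞ (fun w : ℂ × ℂ => chd c w.1) w := by
  have h1 : ContDiff ℝ ∞ (fun w : ℂ × ℂ => w.1.im) := imCLM.contDiff.comp contDiff_fst
  have h2 : ContDiff ℝ ∞ (fun w : ℂ × ℂ => w.1.re) := reCLM.contDiff.comp contDiff_fst
  have hy : 0 < w.1.im := hw
  exact ((((h2.sub contDiff_const).pow 2).add (h1.pow 2)).add contDiff_const).contDiffAt.div
    ((contDiff_const.mul h1).mul contDiff_const).contDiffAt (by positivity)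

theorem contDiffAt_GG (K u₀ : ℝ) {c : ℂ} (hc : 0 < c.im) {w : ℂ × ℂ} (hw : w ∈ phase) :
    ContDiffAt ℝ ∞ (GG K u₀ c) w :=
  contDiff_kin.contDiffAt.add (contDiffAt_const.mul
    (expNegInvGlue.contDiff.contDiffAt.comp w ((contDiffAt_chd hc hw).sub contDiffAt_const)))

theorem fderiv_GG (K u₀ : ℝ) {c : ℂ} (hc : 0 < c.im) {w : ℂ × ℂ} (hw : w ∈ phase) (v : ℂ × ℂ) :
    fderiv ℝ (GG K u₀ c) w v = fderiv ℝ kin w v +
      wall K u₀ (chd c w.1) * ((grad c w.1).re * v.1.re + (grad c w.1).im * v.1.im) := by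
  have hy : 0 < w.1.im := hw
  have h1 : HasFDerivAt (fun w : ℂ × ℂ => w.1.im) (imCLM.comp (ContinuousLinearMap.fst ℝ ℂ ℂ)) w :=
    (imCLM.comp (ContinuousLinearMap.fst ℝ ℂ ℂ)).hasFDerivAt
  have h2 : HasFDerivAt (fun w : ℂ × ℂ => w.1.re) (reCLM.comp (ContinuousLinearMap.fst ℝ ℂ ℂ)) w :=
    (reCLM.comp (ContinuousLinearMap.fst ℝ ℂ ℂ)).hasFDerivAt
  have h3 := (hasDerivAt_inv hy.ne').comp_hasFDerivAt w h1
  have h4 := ((((((h2.sub_const c.re).pow 2).add (h1.pow 2)).add_const (c.im ^ 2)).mul h3).mul_const (2 * c.im)⁻¹)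
  have h5 : HasFDerivAt (fun w : ℂ × ℂ => chd c w.1) _ w := h4.congr_of_eventuallyEq (Eventually.of_forall fun w => by
    simp only [chd, Pi.add_apply, Pi.mul_apply, Function.comp]
    ring)
  have h6 := ((differentiable_kin w).hasFDerivAt.add
    ((hasDerivAt_wall K u₀ (chd c w.1)).comp_hasFDerivAt w h5)).fderiv
  have e : GG K u₀ c = kin + (fun u => K * expNegInvGlue (u - u₀)) ∘ fun w : ℂ × ℂ => chd c w.1 := rfl
  rw [e, h6]
  simp [grad]
  field_simp
  ring

theorem omega_XG (K u₀ : ℝ) {c : ℂ} (hc : 0 < c.im) {w : ℂ × ℂ} (hw : w ∈ phase) (μ : ℝ) (v : ℂ × ℂ) :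
    omega w (μ • XG K u₀ c w) v = -(μ * fderiv ℝ (GG K u₀ c) w v) := by
  have h := omega_XH hw μ v
  rw [fderiv_GG K u₀ hc hw, mul_add, neg_add, ← h]
  simp [omega, XG]
  ring

theorem omega_self (w X : ℂ × ℂ) : omega w X X = 0 := by simp [omega, mul_comm]

theorem loc_period {K u₀ σ E T : ℝ} {c : ℂ} (hc : 0 < c.im) (hK : 0 < K) {v : ℝ → ℂ × ℂ}
    (hv : ∀ t, v t ∈ phase) (hd : ∀ t, HasDerivAt v (XG K u₀ c (v t)) t) (hG : ∀ t, GG K u₀ c (v t) = E)
    (hE : 0 < E) (hE1 : E ≠ 1) (hσ : 0 < σ) (hu₀ : 0 < u₀) (hu : u₀ ^ 2 = 1 + σ ^ 2) (hT : 0 < T)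
    (hp : ∀ t, v (t + T) = v t) : 2 * tau σ E ≤ T := by
  have hy : ∀ t, 0 < (v t).1.im := hv
  have d1 : ∀ t, HasDerivAt (fun t => (v t).1.re) (XG K u₀ c (v t)).1.re t := fun t =>
    (reCLM.comp (ContinuousLinearMap.fst ℝ ℂ ℂ)).hasFDerivAt.comp_hasDerivAt t (hd t)
  have d2 : ∀ t, HasDerivAt (fun t => (v t).1.im) (XG K u₀ c (v t)).1.im t := fun t =>
    (imCLM.comp (ContinuousLinearMap.fst ℝ ℂ ℂ)).hasFDerivAt.comp_hasDerivAt t (hd t)
  have d3 : ∀ t, HasDerivAt (fun t => (v t).2.re) (XG K u₀ c (v t)).2.re t := fun t =>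
    (reCLM.comp (ContinuousLinearMap.snd ℝ ℂ ℂ)).hasFDerivAt.comp_hasDerivAt t (hd t)
  have d4 : ∀ t, HasDerivAt (fun t => (v t).2.im) (XG K u₀ c (v t)).2.im t := fun t =>
    (imCLM.comp (ContinuousLinearMap.snd ℝ ℂ ℂ)).hasFDerivAt.comp_hasDerivAt t (hd t)
  have eu : ∀ t, ((((v t).1.re - c.re) / c.im) ^ 2 + ((v t).1.im / c.im) ^ 2 + 1) / (2 * ((v t).1.im / c.im)) =
      chd c (v t).1 := fun t => by
    have := hy t
    rw [chd]
    field_simp
  have ek : ∀ t, ((v t).1.im / c.im) ^ 2 * ((c.im * (v t).2.re) ^ 2 + (c.im * (v t).2.im) ^ 2) = kin (v t) :=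
    fun t => by
      rw [kin]
      field_simp
  refine ode_period (x := fun t => ((v t).1.re - c.re) / c.im) (y := fun t => (v t).1.im / c.im)
    (p := fun t => c.im * (v t).2.re) (q := fun t => c.im * (v t).2.im)
    (β := fun t => wall K u₀ (chd c (v t).1)) (fun t => div_pos (hy t) hc) (fun t => ?_) (fun t => ?_)
    (fun t => ?_) (fun t => ?_) (fun t => ?_) (fun t h => ?_) (fun t => ?_) (fun t h => ?_) (fun t h => ?_)
    hE hE1 hσ hu₀ hu hT (fun t => by simp only [hp]) (fun t => by simp only [hp]) (fun t => by simp only [hp])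
    (fun t => by simp only [hp])
  · refine HasDerivAt.congr_deriv (((d1 t).sub_const c.re).div_const c.im) ?_
    simp only [XG, Prod.fst_sub, sub_zero, XH_1re]
    field_simp
  · refine HasDerivAt.congr_deriv ((d2 t).div_const c.im) ?_
    simp only [XG, Prod.fst_sub, sub_zero, XH_1im]
    field_simp
  · have := hy t
    refine HasDerivAt.congr_deriv ((d3 t).const_mul c.im) ?_
    simp only [XG, Prod.snd_sub, sub_re, XH_2re, smul_re, smul_eq_mul, grad]
    field_simp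
  · have := hy t
    refine HasDerivAt.congr_deriv ((d4 t).const_mul c.im) ?_
    simp only [XG, Prod.snd_sub, sub_im, XH_2im, smul_im, smul_eq_mul, grad]
    field_simp
  · rw [ek, ← hG t, GG]
    have := mul_nonneg hK.le (expNegInvGlue.nonneg (chd c (v t).1 - u₀))
    linarith
  · rw [eu] at h
    rw [ek, ← hG t, GG, expNegInvGlue.zero_of_nonpos (by linarith)]
    ring
  · exact mul_nonneg hK.le (mul_nonneg (sq_nonneg _) (expNegInvGlue.nonneg _))
  · rw [eu] at h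
    rw [wall, expNegInvGlue.zero_of_nonpos (by linarith)]
    ring
  · rw [eu] at h
    have h1 : 0 < chd c (v t).1 - u₀ := by linarith
    exact mul_pos hK (mul_pos (by positivity) (expNegInvGlue.pos_of_pos h1))

end Pool.Agent.HZ42
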