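import Pool.Agent.MP_6c7bdb_gt.MB.Dyn

/-! The half period of the two bounce orbit as a function of the energy, and the profile function. -/

namespace Pool.Agent.HZ42

open Set Filter Topology
open scoped ContDiff
open Pool.Agent.HZ64

/-- half of the minimal period at energy `E` in the disc with `sinh (radius) = σ` -/
noncomputable def tau (σ E : ℝ) : ℝ :=
  if E < 1 then Real.arcsin (σ * √(1 - E) / √E) / √(1 - E) else Real.arsinh (σ * √(E - 1) / √E) / √(E - 1)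

theorem tau_good {σ E : ℝ} (hσ : 0 < σ) (hE : 0 < E) (hE1 : E ≠ 1) :
    ∃ C S : ℝ → ℝ, TrigPair (E - 1) C S ∧ 0 < tau σ E ∧ 0 ≤ E - 1 + (Real.pi / (2 * tau σ E)) ^ 2 ∧
      (∀ t ∈ Ioo 0 (2 * tau σ E), 0 < S t) ∧ E * S (tau σ E) ^ 2 ≤ σ ^ 2 := by
  have hB : 0 < √E := Real.sqrt_pos.2 hE
  have hB2 := Real.sq_sqrt hE.le
  have hpi := Real.pi_pos
  rcases lt_or_gt_of_ne hE1 with h | h
  · have hA : 0 < √(1 - E) := Real.sqrt_pos.2 (by linarith)
    have hA2 := Real.sq_sqrt (show 0 ≤ 1 - E by linarith)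
    have hX : 0 < σ * √(1 - E) / √E := by positivity
    have a1 : 0 < Real.arcsin (σ * √(1 - E) / √E) := Real.arcsin_pos.2 hX
    have a2 := Real.arcsin_le_pi_div_two (σ * √(1 - E) / √E)
    have e : tau σ E = Real.arcsin (σ * √(1 - E) / √E) / √(1 - E) := if_pos h
    have e' : √(1 - E) * tau σ E = Real.arcsin (σ * √(1 - E) / √E) := by rw [e]; field_simp
    have ht : 0 < tau σ E := by rw [e]; positivity
    refine ⟨_, _, trig_cos hA (by linarith), ht, ?_, fun t h1 => ?_, ?_⟩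
    · have : √(1 - E) ≤ Real.pi / (2 * tau σ E) := by
        rw [le_div_iff₀ (by positivity)]; linarith
      nlinarith
    · refine div_pos (Real.sin_pos_of_pos_of_lt_pi (mul_pos hA h1.1) ?_) hA
      nlinarith [mul_lt_mul_of_pos_left h1.2 hA]
    · have b1 : Real.sin (Real.arcsin (σ * √(1 - E) / √E)) ≤ σ * √(1 - E) / √E := by
        rcases le_total (σ * √(1 - E) / √E) 1 with h1 | h1
        · rw [Real.sin_arcsin (by linarith) h1]
        · exact (Real.sin_le_one _).trans h1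
      have b0 : 0 ≤ Real.sin (Real.arcsin (σ * √(1 - E) / √E)) :=
        Real.sin_nonneg_of_nonneg_of_le_pi a1.le (by linarith)
      rw [e']
      have b2 : Real.sin (Real.arcsin (σ * √(1 - E) / √E)) / √(1 - E) ≤ σ / √E := by
        rw [div_le_iff₀ hA]
        refine b1.trans (le_of_eq ?_)
        ring
      have b3 := pow_le_pow_left₀ (div_nonneg b0 hA.le) b2 2
      have b4 : E * (σ / √E) ^ 2 = σ ^ 2 := by rw [div_pow, hB2]; field_simp
      nlinarith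
  · have hA : 0 < √(E - 1) := Real.sqrt_pos.2 (by linarith)
    have hA2 := Real.sq_sqrt (show 0 ≤ E - 1 by linarith)
    have hX : 0 < σ * √(E - 1) / √E := by positivity
    have a1 : 0 < Real.arsinh (σ * √(E - 1) / √E) := Real.arsinh_pos_iff.2 hX
    have e : tau σ E = Real.arsinh (σ * √(E - 1) / √E) / √(E - 1) := if_neg (not_lt.2 h.le)
    have e' : √(E - 1) * tau σ E = Real.arsinh (σ * √(E - 1) / √E) := by rw [e]; field_simp
    have ht : 0 < tau σ E := by rw [e]; positivity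
    refine ⟨_, _, trig_cosh hA hA2.symm, ht, by nlinarith [sq_nonneg (Real.pi / (2 * tau σ E))],
      fun t h1 => div_pos (Real.sinh_pos_iff.2 (mul_pos hA h1.1)) hA, ?_⟩
    rw [e', Real.sinh_arsinh]
    have b2 : σ * √(E - 1) / √E / √(E - 1) = σ / √E := by field_simp
    rw [b2, div_pow, hB2]
    field_simp
    exact le_rfl

theorem exists_step {α β η : ℝ} {Φ τ : ℝ → ℝ} (hαβ : α < β) (hη : 0 < η) (hc : ContinuousOn Φ (Icc α β))
    (hs : ∀ E ∈ Ioo α β, ContDiffAt ℝ ∞ Φ E) (hd : ∀ E ∈ Ioo α β, HasDerivAt Φ (τ E) E)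
    (hp : ∀ E ∈ Ioo α β, 0 < τ E) :
    ∃ (g : ℝ → ℝ) (m α' β' : ℝ), α < α' ∧ β' < β ∧ ContDiff ℝ ∞ g ∧ (∀ E, E ≤ α' → g E = 0) ∧
      (∀ E, β' ≤ E → g E = m) ∧ (∀ E, 0 ≤ g E ∧ g E ≤ m) ∧ Φ β - Φ α - η ≤ m ∧
      (∀ E, E ∉ Ioo α β → deriv g E = 0) ∧ ∀ E ∈ Ioo α β, 0 ≤ deriv g E ∧ deriv g E ≤ τ E := by
  have hm : StrictMonoOn Φ (Icc α β) := strictMonoOn_of_deriv_pos (convex_Icc _ _) hc fun E hE => by
    rw [interior_Icc] at hE
    rw [(hd E hE).deriv]; exact hp E hE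
  have hL : 0 < Φ β - Φ α := sub_pos.2 (hm ⟨le_rfl, hαβ.le⟩ ⟨hαβ.le, le_rfl⟩ hαβ)
  obtain ⟨θ, δ, m, hδ, hδL, hθ, z, o, d, b, l⟩ := exists_cut hL hη
  let k : ℝ → ℝ := fun E => max α (min E β)
  have hk : ∀ E, k E ∈ Icc α β := fun E => ⟨le_max_left _ _, max_le hαβ.le (min_le_right _ _)⟩
  have hkm : Monotone k := fun x y h => max_le_max le_rfl (min_le_min h le_rfl)
  have hki : ∀ E ∈ Icc α β, k E = E := fun E hE => by
    simp only [k]; rw [min_eq_left hE.2, max_eq_right hE.1]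
  let Ψ : ℝ → ℝ := fun E => Φ (k E) - Φ α
  have cΨ : Continuous Ψ := (hc.comp_continuous (by simp only [k]; fun_prop) hk).sub continuous_const
  have mΨ : Monotone Ψ := fun x y h => sub_le_sub_right (hm.monotoneOn (hk x) (hk y) (hkm h)) _
  obtain ⟨α', a1, a2⟩ : ∃ α', Ψ α' < δ ∧ α < α' := by
    have h1 : ∀ᶠ E in 𝓝 α, Ψ E < δ := cΨ.continuousAt.eventually (gt_mem_nhds (by
      simp only [Ψ, hki α ⟨le_rfl, hαβ.le⟩, sub_self]; exact hδ))
    exact ((h1.filter_mono nhdsWithin_le_nhds).and (self_mem_nhdsWithin (a := α) (s := Ioi α))).exists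
  obtain ⟨β', b1, b2⟩ : ∃ β', Φ β - Φ α - δ < Ψ β' ∧ β' < β := by
    have h1 : ∀ᶠ E in 𝓝 β, Φ β - Φ α - δ < Ψ E := cΨ.continuousAt.eventually (lt_mem_nhds (by
      simp only [Ψ, hki β ⟨hαβ.le, le_rfl⟩]; linarith))
    exact ((h1.filter_mono nhdsWithin_le_nhds).and (self_mem_nhdsWithin (a := β) (s := Iio β))).exists
  have g0 : ∀ E, E ≤ α' → θ (Ψ E) = 0 := fun E hE => z _ (by linarith [mΨ hE])
  have g1 : ∀ E, β' ≤ E → θ (Ψ E) = m := fun E hE => o _ (by linarith [mΨ hE])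
  have e0 : ∀ E, E ≤ α → (fun E => θ (Ψ E)) =ᶠ[𝓝 E] fun _ => 0 := fun E hE => by
    filter_upwards [eventually_lt_nhds (lt_of_le_of_lt hE a2)] with x hx using g0 x hx.le
  have e1 : ∀ E, β ≤ E → (fun E => θ (Ψ E)) =ᶠ[𝓝 E] fun _ => m := fun E hE => by
    filter_upwards [eventually_gt_nhds (lt_of_lt_of_le b2 hE)] with x hx using g1 x hx.le
  have e2 : ∀ E ∈ Ioo α β, (fun E => θ (Ψ E)) =ᶠ[𝓝 E] fun E => θ (Φ E - Φ α) := fun E hE => by
    filter_upwards [Ioo_mem_nhds hE.1 hE.2] with x hx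
    simp only [Ψ, hki x (Ioo_subset_Icc_self hx)]
  refine ⟨fun E => θ (Ψ E), m, α', β', a2, b2, contDiff_iff_contDiffAt.2 fun E => ?_, g0, g1, fun E => b _, l,
    fun E hE => ?_, fun E hE => ?_⟩
  · rcases le_or_gt E α with h | h
    · exact contDiffAt_const.congr_of_eventuallyEq (e0 E h)
    rcases le_or_gt β E with h' | h'
    · exact contDiffAt_const.congr_of_eventuallyEq (e1 E h')
    exact (hθ.contDiffAt.comp E ((hs E ⟨h, h'⟩).sub contDiffAt_const)).congr_of_eventuallyEq (e2 E ⟨h, h'⟩)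
  · rcases le_or_gt E α with h | h
    · rw [(e0 E h).deriv_eq]; simp
    rcases le_or_gt β E with h' | h'
    · rw [(e1 E h').deriv_eq]; simp
    exact absurd ⟨h, h'⟩ hE
  · have := ((hθ.differentiable (by simp)) (Φ E - Φ α)).hasDerivAt.comp E ((hd E hE).sub_const (Φ α))
    have e : deriv (fun E => θ (Ψ E)) E = deriv θ (Φ E - Φ α) * τ E := by
      rw [(e2 E hE).deriv_eq]; exact this.deriv
    rw [e]
    have h1 := d (Φ E - Φ α)
    have h2 := hp E hE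
    exact ⟨mul_nonneg h1.1 h2.le, by nlinarith [h1.2]⟩

/-- the action of the two bounce orbit below the horocycle level -/
noncomputable def PhiM (σ θ E : ℝ) : ℝ :=
  -4 * √(1 - E) * Real.arcsin (σ * √(1 - E) / √E) + 4 * Real.arcsin (θ / √E)

/-- the action of the two bounce orbit above the horocycle level -/
noncomputable def PhiP (σ θ E : ℝ) : ℝ :=
  4 * √(E - 1) * Real.arsinh (σ * √(E - 1) / √E) + 4 * Real.arcsin (θ / √E)

section
variable {σ k θ E : ℝ} (hσ : 0 < σ) (hk : 0 < k) (hk2 : k ^ 2 = 1 + σ ^ 2) (hθ : θ * k = σ)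
include hσ hk hk2 hθ

theorem th_pos : 0 < θ ∧ θ ^ 2 < 1 := by
  have h1 : 0 < θ := by
    by_contra h
    nlinarith [mul_nonneg (neg_nonneg.2 (not_lt.1 h)) hk.le]
  refine ⟨h1, ?_⟩
  have : θ ^ 2 * k ^ 2 = σ ^ 2 := by rw [← hθ]; ring
  nlinarith

theorem y_lt (h : θ ^ 2 < E) : 0 < θ / √E ∧ θ / √E < 1 := by
  obtain ⟨h1, _⟩ := th_pos hσ hk hk2 hθ
  have h2 : θ < √E := Real.lt_sqrt_of_sq_lt h
  exact ⟨div_pos h1 (h1.trans h2), (div_lt_one (h1.trans h2)).2 h2⟩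

theorem deriv_PhiM (h : θ ^ 2 < E) (h' : E < 1) :
    ContDiffAt ℝ ∞ (PhiM σ θ) E ∧ HasDerivAt (PhiM σ θ) (2 * tau σ E) E := by
  obtain ⟨t1, _⟩ := th_pos hσ hk hk2 hθ
  obtain ⟨y0, y1⟩ := y_lt hσ hk hk2 hθ h
  have hE : 0 < E := lt_trans (by positivity) h
  have hB : 0 < √E := Real.sqrt_pos.2 hE
  have hB2 := Real.sq_sqrt hE.le
  have hA : 0 < √(1 - E) := Real.sqrt_pos.2 (by linarith)
  have hA2 := Real.sq_sqrt (show 0 ≤ 1 - E by linarith)
  have hQ : 0 < 1 - (θ / √E) ^ 2 := by nlinarith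
  have eX : 1 - (σ * √(1 - E) / √E) ^ 2 = k ^ 2 * (1 - (θ / √E) ^ 2) := by
    rw [div_pow, div_pow, mul_pow, hA2, hB2]
    field_simp
    rw [← hθ] at hk2 ⊢
    linear_combination (-E) * hk2
  have x0 : 0 < σ * √(1 - E) / √E := by positivity
  have x1 : σ * √(1 - E) / √E < 1 := by nlinarith [mul_pos (pow_pos hk 2) hQ]
  have eQ : √(1 - (σ * √(1 - E) / √E) ^ 2) = k * √(1 - (θ / √E) ^ 2) := by
    rw [eX, Real.sqrt_mul (sq_nonneg k), Real.sqrt_sq hk.le]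
  have sA : ContDiffAt ℝ ∞ (fun E : ℝ => √(1 - E)) E :=
    (contDiffAt_const.sub contDiffAt_id).sqrt (by simp; linarith)
  have sB : ContDiffAt ℝ ∞ (fun E : ℝ => √E) E := Real.contDiffAt_sqrt hE.ne'
  constructor
  · exact ((contDiffAt_const.mul sA).mul ((Real.contDiffAt_arcsin (by linarith) x1.ne).comp E
      ((contDiffAt_const.mul sA).div sB hB.ne'))).add (contDiffAt_const.mul
      ((Real.contDiffAt_arcsin (by linarith) y1.ne).comp E (contDiffAt_const.div sB hB.ne')))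
  · have dA : HasDerivAt (fun E : ℝ => √(1 - E)) (-1 / (2 * √(1 - E))) E :=
      ((hasDerivAt_id' E).const_sub 1).sqrt (by linarith)
    have dB := Real.hasDerivAt_sqrt hE.ne'
    have d1 := (Real.hasDerivAt_arcsin (by linarith) x1.ne).comp E ((dA.const_mul σ).div dB hB.ne')
    have d2 := (Real.hasDerivAt_arcsin (by linarith) y1.ne).comp E ((hasDerivAt_const E θ).div dB hB.ne')
    refine HasDerivAt.congr_deriv (((dA.const_mul (-4)).mul d1).add (d2.const_mul 4)) ?_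
    have e : tau σ E = Real.arcsin (σ * √(1 - E) / √E) / √(1 - E) := if_pos h'
    have hq : 0 < √(1 - (θ / √E) ^ 2) := Real.sqrt_pos.2 hQ
    simp only [Function.comp, Pi.div_apply]
    rw [e, eQ, ← hθ]
    generalize √(1 - (θ / √E) ^ 2) = Q at hq ⊢
    generalize Real.arcsin (θ * k * √(1 - E) / √E) = W
    field_simp
    linear_combination (4 * θ * √(1 - E)) * (hA2 + hB2)

theorem deriv_PhiP (h' : 1 < E) :
    ContDiffAt ℝ ∞ (PhiP σ θ) E ∧ HasDerivAt (PhiP σ θ) (2 * tau σ E) E := by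
  obtain ⟨t1, t2⟩ := th_pos hσ hk hk2 hθ
  obtain ⟨y0, y1⟩ := y_lt hσ hk hk2 hθ (t2.trans h')
  have hE : 0 < E := by linarith
  have hB : 0 < √E := Real.sqrt_pos.2 hE
  have hB2 := Real.sq_sqrt hE.le
  have hA : 0 < √(E - 1) := Real.sqrt_pos.2 (by linarith)
  have hA2 := Real.sq_sqrt (show 0 ≤ E - 1 by linarith)
  have hQ : 0 < 1 - (θ / √E) ^ 2 := by nlinarith
  have eX : 1 + (σ * √(E - 1) / √E) ^ 2 = k ^ 2 * (1 - (θ / √E) ^ 2) := by
    rw [div_pow, div_pow, mul_pow, hA2, hB2]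
    field_simp
    rw [← hθ] at hk2 ⊢
    linear_combination (-E) * hk2
  have eQ : √(1 + (σ * √(E - 1) / √E) ^ 2) = k * √(1 - (θ / √E) ^ 2) := by
    rw [eX, Real.sqrt_mul (sq_nonneg k), Real.sqrt_sq hk.le]
  have sA : ContDiffAt ℝ ∞ (fun E : ℝ => √(E - 1)) E :=
    (contDiffAt_id.sub contDiffAt_const).sqrt (by simp; linarith)
  have sB : ContDiffAt ℝ ∞ (fun E : ℝ => √E) E := Real.contDiffAt_sqrt hE.ne'
  constructor
  · have q1 : ContDiffAt ℝ ∞ (fun E : ℝ => σ * √(E - 1) / √E) E := (contDiffAt_const.mul sA).div sB hB.ne'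
    have q2 : ContDiffAt ℝ ∞ (fun E : ℝ => θ / √E) E := contDiffAt_const.div sB hB.ne'
    have q3 : ContDiffAt ℝ ∞ (fun E : ℝ => Real.arcsin (θ / √E)) E :=
      ContDiffAt.comp (g := Real.arcsin) E (Real.contDiffAt_arcsin (by linarith) y1.ne) q2
    exact ((contDiffAt_const.mul sA).mul q1.arsinh).add (contDiffAt_const.mul q3)
  · have dA : HasDerivAt (fun E : ℝ => √(E - 1)) (1 / (2 * √(E - 1))) E :=
      ((hasDerivAt_id' E).sub_const 1).sqrt (by linarith)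
    have dB := Real.hasDerivAt_sqrt hE.ne'
    have d1 := (Real.hasDerivAt_arsinh _).comp E ((dA.const_mul σ).div dB hB.ne')
    have d2 := (Real.hasDerivAt_arcsin (by linarith) y1.ne).comp E ((hasDerivAt_const E θ).div dB hB.ne')
    refine HasDerivAt.congr_deriv (((dA.const_mul 4).mul d1).add (d2.const_mul 4)) ?_
    have e : tau σ E = Real.arsinh (σ * √(E - 1) / √E) / √(E - 1) := if_neg (not_lt.2 h'.le)
    have hq : 0 < √(1 - (θ / √E) ^ 2) := Real.sqrt_pos.2 hQ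
    simp only [Function.comp, Pi.div_apply]
    rw [e, eQ, ← hθ]
    generalize √(1 - (θ / √E) ^ 2) = Q at hq ⊢
    generalize Real.arsinh (θ * k * √(E - 1) / √E) = W
    field_simp
    linear_combination (4 * θ * √(E - 1)) * (hB2 - hA2)

theorem tau_low (hE : 0 < E) (h : E ≤ θ ^ 2) : 1 ≤ σ * √(1 - E) / √E := by
  obtain ⟨t1, t2⟩ := th_pos hσ hk hk2 hθ
  have hB : 0 < √E := Real.sqrt_pos.2 hE
  rw [le_div_iff₀ hB, one_mul]
  refine abs_le_of_sq_le_sq' ?_ (by positivity) |>.2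
  rw [mul_pow, Real.sq_sqrt hE.le, Real.sq_sqrt (by linarith)]
  have : θ ^ 2 * k ^ 2 = σ ^ 2 := by rw [← hθ]; ring
  nlinarith [mul_le_mul_of_nonneg_right h (sq_nonneg k)]

theorem exists_prof {a c₀ : ℝ} (ha : 1 < a) (hc : c₀ < PhiP σ θ a) :
    ∃ (f : ℝ → ℝ) (c : ℝ), c₀ < c ∧ ContDiff ℝ ∞ f ∧ (∀ h, 0 ≤ f h ∧ f h ≤ c) ∧
      (∃ η, 0 < η ∧ ∀ h, h ≤ η → f h = c) ∧ (∃ b, b < a ∧ ∀ h, b ≤ h → f h = 0) ∧
      ∀ h, deriv f h ≠ 0 → 0 < h ∧ h ≠ 1 ∧ |deriv f h| < 2 * tau σ h := by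
  obtain ⟨t1, t2⟩ := th_pos hσ hk hk2 hθ
  have t0 : 0 < θ ^ 2 := by positivity
  have hpi := Real.pi_pos
  obtain ⟨ε, hε, hε0, hε1⟩ : ∃ ε : ℝ, c₀ < (1 - ε) * (PhiP σ θ a - 3 * ε) ∧ 0 < ε ∧ ε < 1 := by
    have hcont : Continuous fun ε : ℝ => (1 - ε) * (PhiP σ θ a - 3 * ε) := by fun_prop
    have h1 : ∀ᶠ ε in 𝓝 (0 : ℝ), c₀ < (1 - ε) * (PhiP σ θ a - 3 * ε) :=
      hcont.continuousAt.eventually (lt_mem_nhds (by simpa using hc))
    exact ((h1.filter_mono nhdsWithin_le_nhds).and (Ioo_mem_nhdsGT one_pos)).exists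
  have tp : ∀ E, 0 < E → E ≠ 1 → 0 < 2 * tau σ E := fun E h1 h2 => by
    obtain ⟨_, _, _, h3, _⟩ := tau_good hσ h1 h2
    linarith
  obtain ⟨g₀, m₀, α₀, β₀, a₀, b₀, s₀, z₀, o₀, r₀, l₀, n₀, d₀⟩ :=
    exists_step (Φ := fun E => -(2 * Real.pi) * √(1 - E)) (τ := fun E => 2 * tau σ E) t0 hε0 (by fun_prop)
      (fun E hE => contDiffAt_const.mul ((contDiffAt_const.sub contDiffAt_id).sqrt (by simp; linarith [hE.2])))
      (fun E hE => by
        have dA : HasDerivAt (fun E : ℝ => √(1 - E)) (-1 / (2 * √(1 - E))) E :=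
          ((hasDerivAt_id' E).const_sub 1).sqrt (by linarith [hE.2])
        refine HasDerivAt.congr_deriv (dA.const_mul (-(2 * Real.pi))) ?_
        have e : tau σ E = Real.arcsin (σ * √(1 - E) / √E) / √(1 - E) := if_pos (hE.2.trans t2)
        rw [e, Real.arcsin_of_one_le (tau_low hσ hk hk2 hθ hE.1 hE.2.le)]
        ring)
      fun E hE => tp E hE.1 (hE.2.trans t2).ne
  have cB : ∀ s : Set ℝ, (∀ E ∈ s, 0 < E) → ∀ E ∈ s, √E ≠ 0 := fun s hs E hE => (Real.sqrt_pos.2 (hs E hE)).ne'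
  obtain ⟨g₁, m₁, α₁, β₁, a₁, b₁, s₁, z₁, o₁, r₁, l₁, n₁, d₁⟩ :=
    exists_step (Φ := PhiM σ θ) (τ := fun E => 2 * tau σ E) t2 hε0
      (by
        have := cB (Icc (θ ^ 2) 1) fun E hE => t0.trans_le hE.1
        exact (ContinuousOn.mul (by fun_prop) (Real.continuous_arcsin.comp_continuousOn
          (ContinuousOn.div (by fun_prop) (by fun_prop) this))).add (continuousOn_const.mul
          (Real.continuous_arcsin.comp_continuousOn (ContinuousOn.div (by fun_prop) (by fun_prop) this))))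
      (fun E hE => (deriv_PhiM hσ hk hk2 hθ hE.1 hE.2).1) (fun E hE => (deriv_PhiM hσ hk hk2 hθ hE.1 hE.2).2)
      fun E hE => tp E (t0.trans hE.1) hE.2.ne
  obtain ⟨g₂, m₂, α₂, β₂, a₂, b₂, s₂, z₂, o₂, r₂, l₂, n₂, d₂⟩ :=
    exists_step (Φ := PhiP σ θ) (τ := fun E => 2 * tau σ E) ha hε0
      (by
        have := cB (Icc 1 a) fun E hE => one_pos.trans_le hE.1
        exact (ContinuousOn.mul (by fun_prop) (Real.continuous_arsinh.comp_continuousOn
          (ContinuousOn.div (by fun_prop) (by fun_prop) this))).add (continuousOn_const.mul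
          (Real.continuous_arcsin.comp_continuousOn (ContinuousOn.div (by fun_prop) (by fun_prop) this))))
      (fun E hE => (deriv_PhiP hσ hk hk2 hθ hE.1).1) (fun E hE => (deriv_PhiP hσ hk hk2 hθ hE.1).2)
      fun E hE => tp E (one_pos.trans hE.1) hE.1.ne'
  have j1 : PhiM σ θ (θ ^ 2) = -(2 * Real.pi) * √(1 - θ ^ 2) + 2 * Real.pi := by
    rw [PhiM, Real.arcsin_of_one_le (tau_low hσ hk hk2 hθ t0 le_rfl), Real.sqrt_sq t1.le, div_self t1.ne',
      Real.arcsin_one]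
    ring
  have j2 : PhiM σ θ 1 = PhiP σ θ 1 := by simp [PhiM, PhiP]
  simp only [sub_zero, Real.sqrt_one] at l₀
  have hl : 0 < 1 - ε := by linarith
  let f : ℝ → ℝ := fun h => (1 - ε) * (m₀ + m₁ + m₂ - (g₀ h + g₁ h + g₂ h))
  have hder : ∀ h, deriv f h = -((1 - ε) * (deriv g₀ h + deriv g₁ h + deriv g₂ h)) := fun h => by
    have e := ((((s₀.differentiable (by simp) h).hasDerivAt.add (s₁.differentiable (by simp) h).hasDerivAt).add
      (s₂.differentiable (by simp) h).hasDerivAt).const_sub (m₀ + m₁ + m₂)).const_mul (1 - ε)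
    refine (HasDerivAt.congr_deriv e ?_).deriv
    ring
  refine ⟨f, (1 - ε) * (m₀ + m₁ + m₂), lt_of_lt_of_le hε (mul_le_mul_of_nonneg_left (by linarith) hl.le),
    contDiff_const.mul (contDiff_const.sub ((s₀.add s₁).add s₂)), fun h => ⟨?_, ?_⟩,
    ⟨min α₀ (θ ^ 2), lt_min a₀ t0, fun h hh => ?_⟩, ⟨max β₂ 1, max_lt b₂ ha, fun h hh => ?_⟩, fun h hne => ?_⟩
  · exact mul_nonneg hl.le (by linarith [(r₀ h).2, (r₁ h).2, (r₂ h).2])
  · exact mul_le_mul_of_nonneg_left (by linarith [(r₀ h).1, (r₁ h).1, (r₂ h).1]) hl.le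
  · have h1 := hh.trans (min_le_left _ _)
    have h2 := hh.trans (min_le_right _ _)
    simp only [f, z₀ h h1, z₁ h (by linarith), z₂ h (by linarith)]
    ring
  · have h1 := (le_max_left _ _).trans hh
    have h2 := (le_max_right _ _).trans hh
    simp only [f, o₀ h (by linarith), o₁ h (by linarith), o₂ h h1]
    ring
  · rw [hder] at hne ⊢
    have fin : ∀ x : ℝ, 0 < h → h ≠ 1 → 0 ≤ x ∧ x ≤ 2 * tau σ h →
        deriv g₀ h + deriv g₁ h + deriv g₂ h = x →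
        0 < h ∧ h ≠ 1 ∧ |-((1 - ε) * (deriv g₀ h + deriv g₁ h + deriv g₂ h))| < 2 * tau σ h := by
      intro x h1 h2 h3 h4
      refine ⟨h1, h2, ?_⟩
      rw [h4, abs_neg, abs_of_nonneg (mul_nonneg hl.le h3.1)]
      nlinarith [tp h h1 h2, h3.2]
    by_cases c0 : h ∈ Ioo 0 (θ ^ 2)
    · exact fin _ c0.1 (c0.2.trans t2).ne (d₀ h c0) (by
        rw [n₁ h fun c => by linarith [c.1, c0.2], n₂ h fun c => by linarith [c.1, c0.2]]; ring)
    by_cases c1 : h ∈ Ioo (θ ^ 2) 1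
    · exact fin _ (t0.trans c1.1) c1.2.ne (d₁ h c1) (by
        rw [n₀ h c0, n₂ h fun c => by linarith [c.1, c1.2]]; ring)
    by_cases c2 : h ∈ Ioo 1 a
    · exact fin _ (one_pos.trans c2.1) c2.1.ne' (d₂ h c2) (by rw [n₀ h c0, n₁ h c1]; ring)
    exact absurd (by rw [n₀ h c0, n₁ h c1, n₂ h c2]; ring) hne

end

end Pool.Agent.HZ42
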