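import Pool.Agent.MP_6c7bdb_gt.MB.Glob

/-! Displacement of the elements of a surface group, and comparison with the first integrals. -/

namespace Pool.Agent.HZ42

open Set Filter Topology
open scoped MatrixGroups UpperHalfPlane
open Pool.Agent.HZ64

theorem cosh_disp (γ : SL(2, ℝ)) (z : ℍ) : Real.cosh (dist z (γ • z)) = ((γ 0 0 + γ 1 1) ^ 2 - 2) / 2 +
    (γ 1 0 * (z.re ^ 2 + z.im ^ 2) + (γ 1 1 - γ 0 0) * z.re - γ 0 1) ^ 2 / (2 * z.im ^ 2) := by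
  have hd := sl_det γ
  have hy := z.im_pos
  have hN : 0 < (γ 1 0 * z.re + γ 1 1) ^ 2 + (γ 1 0 * z.im) ^ 2 := by
    by_cases h : γ 1 0 = 0
    · have : γ 1 1 ≠ 0 := by
        intro h1
        rw [h, h1] at hd
        simp at hd
      rw [h]
      simp only [zero_mul, zero_add]
      positivity
    · have : 0 < (γ 1 0 * z.im) ^ 2 := by positivity
      positivity
  have e1 : (γ • z).re = ((γ 0 0 * z.re + γ 0 1) * (γ 1 0 * z.re + γ 1 1) + γ 0 0 * γ 1 0 * z.im ^ 2) /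
      ((γ 1 0 * z.re + γ 1 1) ^ 2 + (γ 1 0 * z.im) ^ 2) := by
    rw [← UpperHalfPlane.coe_re, ← mob_eq, mob, Complex.div_re, Complex.normSq_apply]
    simp
    ring
  have e2 : (γ • z).im = z.im / ((γ 1 0 * z.re + γ 1 1) ^ 2 + (γ 1 0 * z.im) ^ 2) := by
    rw [← UpperHalfPlane.coe_im, ← mob_eq, mob, Complex.div_im, Complex.normSq_apply]
    simp
    rw [← sub_div]
    congr 1
    · linear_combination z.im * hd
    · ring
  rw [UpperHalfPlane.cosh_dist', e1, e2]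
  generalize γ 0 0 = a at *
  generalize γ 0 1 = b at *
  generalize γ 1 0 = c at *
  generalize γ 1 1 = d at *
  generalize z.re = x at *
  generalize z.im = y at *
  have key : (x * ((c * x + d) ^ 2 + (c * y) ^ 2) - ((a * x + b) * (c * x + d) + a * c * y ^ 2)) ^ 2 +
      y ^ 2 * ((c * x + d) ^ 2 + (c * y) ^ 2 - (a * d - b * c)) ^ 2 = ((c * x + d) ^ 2 + (c * y) ^ 2) *
      ((c * (x ^ 2 + y ^ 2) + (d - a) * x - b) ^ 2 + ((a + d) ^ 2 - 4 * (a * d - b * c)) * y ^ 2) := by ring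
  rw [hd] at key
  generalize (c * x + d) ^ 2 + (c * y) ^ 2 = N at *
  field_simp
  linear_combination key

theorem exists_disp {Γ : Subgroup SL(2, ℝ)} (hΓ : IsSurfaceGroup Γ) :
    ∃ ρ, 0 < ρ ∧ ∀ γ ∈ Γ, γ ≠ 1 → γ ≠ -1 → ∀ z : ℍ, ρ ≤ dist z (γ • z) := by
  obtain ⟨K, hK, hKp, hKc⟩ := hΓ.cocompact
  have hK₁ : IsCompact ((↑) ⁻¹' K : Set ℍ) :=
    UpperHalfPlane.isEmbedding_coe.isInducing.isCompact_preimage' hK fun z hz => ⟨⟨z, hKp z hz⟩, rfl⟩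
  have hK₂ := (hK₁.cthickening (r := 1)).image UpperHalfPlane.continuous_coe
  have hfin := hΓ.discrete _ hK₂ (by rintro _ ⟨z, _, rfl⟩; exact z.im_pos)
  have h1 := (eventually_all_finite (l := 𝓝[>] (0 : ℝ)) hfin
    (p := fun γ ρ => γ ≠ 1 → γ ≠ -1 → ∀ z ∈ ((↑) ⁻¹' K : Set ℍ), ρ ≤ dist z (γ • z))).2 fun γ hγ => by
      by_cases h : γ = 1 ∨ γ = -1
      · exact Eventually.of_forall fun ρ a b => absurd h (not_or.2 ⟨a, b⟩)
      obtain ⟨r, hr, hr'⟩ := hK₁.exists_forall_le' (f := fun z : ℍ => dist z (γ • z))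
        (continuous_id.dist (isometry_smul ℍ γ).continuous).continuousOn (a := 0) fun z _ =>
          dist_pos.2 fun e => h (hΓ.free γ hγ.1 z z.im_pos (by rw [mob_eq, ← e]))
      filter_upwards [Ioo_mem_nhdsGT hr] with ρ hρ _ _ z hz using hρ.2.le.trans (hr' z hz)
  obtain ⟨ρ, h2, h3⟩ := (h1.and (Ioo_mem_nhdsGT one_pos)).exists
  refine ⟨ρ, h3.1, fun γ hγ a b z => ?_⟩
  obtain ⟨δ, hδ, hz⟩ := hKc z z.im_pos
  rw [mob_eq] at hz
  have e : dist z (γ • z) = dist (δ • z) ((δ * γ * δ⁻¹) • δ • z) := by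
    rw [smul_smul, inv_mul_cancel_right, mul_smul, dist_smul]
  rw [e]
  rcases le_total 1 (dist (δ • z) ((δ * γ * δ⁻¹) • δ • z)) with h4 | h4
  · exact h3.2.le.trans h4
  refine h2 _ ⟨Γ.mul_mem (Γ.mul_mem hδ hγ) (Γ.inv_mem hδ), (δ • z : ℍ),
    ⟨_, Metric.self_subset_cthickening _ hz, rfl⟩, ?_⟩ (fun h => a ?_) (fun h => b ?_) _ hz
  · rw [mob_eq]
    exact ⟨_, Metric.mem_cthickening_of_dist_le _ (δ • z) _ _ hz (by rwa [dist_comm]), rfl⟩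
  · rw [mul_inv_eq_iff_eq_mul, one_mul] at h
    exact mul_left_cancel (h.trans (mul_one δ).symm)
  · rw [mul_inv_eq_iff_eq_mul] at h
    exact mul_left_cancel (h.trans (by simp : -1 * δ = δ * -1))

theorem two_lt_abs_trace {Γ : Subgroup SL(2, ℝ)} (hΓ : IsSurfaceGroup Γ) {γ : SL(2, ℝ)} (hγ : γ ∈ Γ)
    (h1 : γ ≠ 1) (h2 : γ ≠ -1) : 2 < |γ 0 0 + γ 1 1| := by
  refine lt_of_le_of_ne (two_le_abs_trace hΓ hγ) fun h => ?_
  have ht : (γ 0 0 + γ 1 1) ^ 2 = 4 := by rw [← sq_abs, ← h]; norm_num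
  obtain ⟨ρ, hρ, hd⟩ := exists_disp hΓ
  have hε : 0 < Real.cosh ρ - 1 := sub_pos.2 (Real.one_lt_cosh.2 hρ.ne')
  obtain ⟨δ, hδ, hδ2⟩ : ∃ δ : ℝ, 0 < δ ∧ δ ^ 2 = Real.cosh ρ - 1 := ⟨_, Real.sqrt_pos.2 hε, Real.sq_sqrt hε.le⟩
  have hdet := sl_det γ
  have fin : ∀ x y : ℝ, 0 < y →
      (γ 1 0 * (x ^ 2 + y ^ 2) + (γ 1 1 - γ 0 0) * x - γ 0 1) ^ 2 < δ ^ 2 * (2 * y ^ 2) → False := by
    intro x y hy h3
    have h4 := cosh_disp γ ⟨⟨x, y⟩, hy⟩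
    have h5 := not_lt.1 (mt (cosh_lt dist_nonneg hρ.le).1 (not_lt.2 (hd γ hγ h1 h2 ⟨⟨x, y⟩, hy⟩)))
    rw [← div_lt_iff₀ (by positivity)] at h3
    rw [h4, ht] at h5
    simp only [UpperHalfPlane.mk_re, UpperHalfPlane.mk_im] at h5
    linarith
  by_cases hc : γ 1 0 = 0
  · have e : γ 1 1 - γ 0 0 = 0 := by
      rw [hc] at hdet
      exact pow_eq_zero_iff (two_ne_zero) |>.1 (by linear_combination ht - 4 * hdet)
    refine fin 0 ((|γ 0 1| + 1) / δ) (by positivity) ?_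
    have e' : δ ^ 2 * (2 * ((|γ 0 1| + 1) / δ) ^ 2) = 2 * (|γ 0 1| + 1) ^ 2 := by field_simp
    rw [hc, e, e']
    nlinarith [sq_abs (γ 0 1), abs_nonneg (γ 0 1)]
  · have hc' : 0 < |γ 1 0| := abs_pos.2 hc
    refine fin ((γ 0 0 - γ 1 1) / (2 * γ 1 0)) (δ / |γ 1 0|) (by positivity) ?_
    have e : γ 1 0 * (((γ 0 0 - γ 1 1) / (2 * γ 1 0)) ^ 2 + (δ / |γ 1 0|) ^ 2) +
        (γ 1 1 - γ 0 0) * ((γ 0 0 - γ 1 1) / (2 * γ 1 0)) - γ 0 1 = δ ^ 2 / γ 1 0 := by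
      rw [div_pow δ, sq_abs]
      field_simp
      linear_combination (-1) * ht + 4 * hdet
    rw [e, div_pow δ, sq_abs, div_pow]
    have : 0 < (δ ^ 2) ^ 2 / γ 1 0 ^ 2 := by positivity
    have e' : δ ^ 2 * (2 * (δ ^ 2 / γ 1 0 ^ 2)) = 2 * ((δ ^ 2) ^ 2 / γ 1 0 ^ 2) := by ring
    linarith

theorem sys_le_disp {Γ : Subgroup SL(2, ℝ)} (hΓ : IsSurfaceGroup Γ) {s : ℝ} (hs : s ∈ lowerBounds (lengths Γ))
    {γ : SL(2, ℝ)} (hγ : γ ∈ Γ) (h1 : γ ≠ 1) (h2 : γ ≠ -1) (z : ℍ) : s ≤ dist z (γ • z) := by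
  have h3 := two_lt_abs_trace hΓ hγ h1 h2
  have h4 : 0 < (|γ 0 0 + γ 1 1| / 2) ^ 2 - 1 := by nlinarith
  have h5 : 0 < Real.arsinh √((|γ 0 0 + γ 1 1| / 2) ^ 2 - 1) := Real.arsinh_pos_iff.2 (Real.sqrt_pos.2 h4)
  have h6 : Real.cosh (Real.arsinh √((|γ 0 0 + γ 1 1| / 2) ^ 2 - 1)) = |γ 0 0 + γ 1 1| / 2 := by
    rw [Real.cosh_arsinh, Real.sq_sqrt h4.le, add_sub_cancel, Real.sqrt_sq (by positivity)]
  generalize Real.arsinh √((|γ 0 0 + γ 1 1| / 2) ^ 2 - 1) = l at h5 h6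
  have h7 : s ≤ 2 * l := hs ⟨by positivity, γ, hγ, by rw [mul_div_cancel_left₀ _ two_ne_zero, h6]; ring⟩
  refine h7.trans (not_lt.1 fun h => ?_)
  have h8 := (cosh_lt dist_nonneg (by positivity)).2 h
  rw [cosh_disp, Real.cosh_two_mul, Real.sinh_sq, h6, div_pow, sq_abs] at h8
  have : 0 ≤ (γ 1 0 * (z.re ^ 2 + z.im ^ 2) + (γ 1 1 - γ 0 0) * z.re - γ 0 1) ^ 2 / (2 * z.im ^ 2) := by positivity
  linarith

theorem PhiP_eq (R : ℝ) {a : ℝ} (ha : 1 < a) : PhiP (Real.sinh R) (Real.sinh R / Real.cosh R) a =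
    4 * √(a - 1) * Real.arsinh (√(1 - 1 / a) * Real.sinh R) + 4 * Real.arcsin (Real.tanh R / √a) := by
  have e : √(1 - 1 / a) = √(a - 1) / √a := by
    rw [← Real.sqrt_div (by linarith)]
    congr 1
    field_simp
  rw [PhiP, e, Real.tanh_eq_sinh_div_cosh]
  congr 3
  ring

theorem eventually_beats {R s : ℝ} (hR : 0 < R) (hs : s ≤ 2 * R) : ∀ᶠ a in atTop, 2 * Real.pi + s * √(a - 1) <
    4 * √(a - 1) * Real.arsinh (√(1 - 1 / a) * Real.sinh R) + 4 * Real.arcsin (Real.tanh R / √a) := by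
  have l1 : Tendsto (fun a : ℝ => Real.arsinh (√(1 - 1 / a) * Real.sinh R)) atTop (𝓝 R) := by
    have h1 : Tendsto (fun a : ℝ => 1 - 1 / a) atTop (𝓝 (1 - 0)) :=
      tendsto_const_nhds.sub (tendsto_const_nhds.div_atTop tendsto_id)
    have h2 := (Real.continuous_arsinh.tendsto _).comp (h1.sqrt.mul_const (Real.sinh R))
    simpa [Function.comp_def] using h2
  have l2 : Tendsto (fun a : ℝ => √(a - 1)) atTop atTop :=
    Real.tendsto_sqrt_atTop.comp (tendsto_atTop_add_const_right _ (-1) tendsto_id)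
  filter_upwards [l1.eventually (lt_mem_nhds (show 3 * R / 4 < R by linarith)),
    l2.eventually_gt_atTop (2 * Real.pi / R)] with a h1 h2
  have h3 : 0 ≤ Real.arcsin (Real.tanh R / √a) := by
    refine Real.arcsin_nonneg.2 (div_nonneg ?_ (Real.sqrt_nonneg _))
    rw [Real.tanh_eq_sinh_div_cosh]
    exact div_nonneg (Real.sinh_pos_iff.2 hR).le (Real.cosh_pos _).le
  rw [div_lt_iff₀ hR] at h2
  have h4 := Real.sqrt_nonneg (a - 1)
  nlinarith [mul_le_mul_of_nonneg_left h1.le h4, mul_le_mul_of_nonneg_left hs h4]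

/-- first integrals are not extremal for large `a` -/
theorem not_extremal {Γ : Subgroup SL(2, ℝ)} (hΓ : IsSurfaceGroup Γ) {s : ℝ} (hs : s ∈ lowerBounds (lengths Γ)) :
    ∃ a₀ : ℝ, ∀ a, a₀ ≤ a → ∃ (F : ℂ × ℂ → ℝ) (c : ℝ), Admissible Γ a F c ∧ 2 * Real.pi + s * √(a - 1) < c := by
  obtain ⟨ρ, hρ, hd⟩ := exists_disp hΓ
  have hR : 0 < max s ρ / 2 := half_pos (hρ.trans_le (le_max_right _ _))
  obtain ⟨a₀, h⟩ := eventually_atTop.1
    ((eventually_beats hR (s := s) (by linarith [le_max_left s ρ])).and (eventually_gt_atTop 1))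
  refine ⟨a₀, fun a ha => ?_⟩
  obtain ⟨F, c, r, h1, _, h2, _⟩ := lower_disc Γ UpperHalfPlane.I hR (h a ha).2
    (fun γ hγ h1 h2 => by
      have := max_le (sys_le_disp hΓ hs hγ h1 h2 UpperHalfPlane.I) (hd γ hγ h1 h2 UpperHalfPlane.I)
      linarith) (c₀ := 2 * Real.pi + s * √(a - 1)) (by rw [PhiP_eq _ (h a ha).2]; exact (h a ha).1)
  exact ⟨F, c, h2, h1⟩

end Pool.Agent.HZ42
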